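import Pool.Agent.MP_8a92de_lc.H12.Defs

/-! Two-sided approximation (bottleneck counting) for monotone real circuits. -/

namespace Pool.Agent.MP_8a92de_lc.H12

open Finset

variable {Ω : Type}

/-- Switching along a chain: a set meeting all short clauses below a level contains a short
transversal of them or one of few long sets. -/
theorem switch (S : Finset Ω) (K : Ω → Finset ℕ) (q : Ω → ℝ) (s : ℕ) (hc : ∀ ω ∈ S, (K ω).card ≤ s)
    (n : ℕ) (T0 : Finset ℕ) :
    ∃ E : Finset (Finset ℕ), E.card ≤ s ^ n ∧ (∀ T ∈ E, T.card = T0.card + n) ∧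
      ∀ (y : ℕ → Prop) (a : ℝ), (∀ e ∈ T0, y e) → (∀ ω ∈ S, q ω < a → ∃ e ∈ K ω, y e) →
        (∃ T : Finset ℕ, T.card < T0.card + n ∧ (∀ ω ∈ S, q ω < a → ¬Disjoint T (K ω)) ∧
          ∀ e ∈ T, y e) ∨ ∃ T ∈ E, ∀ e ∈ T, y e := by
  induction n generalizing T0 with
  | zero => exact ⟨{T0}, by simp, by simp, fun y a h _ => Or.inr ⟨T0, by simp, h⟩⟩
  | succ n ih =>
    rcases (S.filter fun ω => Disjoint T0 (K ω)).eq_empty_or_nonempty with h | h
    · exact ⟨∅, by simp, by simp, fun y a hy _ => Or.inl ⟨T0, by omega,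
        fun ω hω _ => filter_eq_empty_iff.1 h hω, hy⟩⟩
    · obtain ⟨ω0, h0, hm⟩ := exists_min_image _ q h
      obtain ⟨hK, hd⟩ := mem_filter.1 h0
      choose E h1 h2 h3 using ih
      refine ⟨(K ω0).biUnion fun e => E (insert e T0), ?_, fun T hT => ?_, fun y a hy hy' => ?_⟩
      · refine card_biUnion_le.trans ((sum_le_card_nsmul _ _ _ fun e _ => h1 _).trans ?_)
        rw [smul_eq_mul, pow_succ']
        exact Nat.mul_le_mul_right _ (hc _ hK)
      · obtain ⟨e, he, hT⟩ := mem_biUnion.1 hT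
        rw [h2 _ _ hT, card_insert_of_notMem (disjoint_right.1 hd he)]
        omega
      · by_cases ha : q ω0 < a
        · obtain ⟨e, he, hye⟩ := hy' ω0 hK ha
          have h4 := card_insert_of_notMem (disjoint_right.1 hd he)
          rcases h3 (insert e T0) y a (by simpa [hye] using hy) hy' with ⟨T, a1, a2⟩ | ⟨T, a1, a2⟩
          · exact Or.inl ⟨T, by omega, a2⟩
          · exact Or.inr ⟨T, mem_biUnion.2 ⟨e, he, a1⟩, a2⟩
        · exact Or.inl ⟨T0, by omega, fun ω hω b c =>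
            ha ((hm ω (mem_filter.2 ⟨hω, c⟩)).trans_lt b), hy⟩

/-- Outside the error sets, positive tests have short terms and negative tests short clauses, and
these meet whenever the value `p` on the positive test exceeds the value `q` on the negative one. -/
def Apx (Y Z : Ω → ℕ → Prop) (r s : ℕ) (E1 E0 : Finset Ω) (p q : Ω → ℝ) : Prop :=
  ∃ T K : Ω → Finset ℕ, (∀ ω ∉ E1, (T ω).card ≤ r ∧ ∀ e ∈ T ω, Y ω e) ∧
    (∀ ω ∉ E0, (K ω).card ≤ s ∧ ∀ e ∈ K ω, Z ω e) ∧
    ∀ ω ∉ E1, ∀ ω' ∉ E0, q ω' < p ω → ¬Disjoint (T ω) (K ω')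

variable {Y Z : Ω → ℕ → Prop} {r s : ℕ} {E1 E0 E1' E0' : Finset Ω} {p q p' q' : Ω → ℝ}

theorem Apx.symm (h : Apx Y Z r s E1 E0 p q) :
    Apx Z Y s r E0 E1 (fun ω => -q ω) fun ω => -p ω :=
  let ⟨T, K, h1, h2, h3⟩ := h
  ⟨K, T, h2, h1, fun ω a ω' b c e => h3 ω' b ω a (neg_lt_neg_iff.1 c) e.symm⟩

theorem Apx.mono (h : Apx Y Z r s E1 E0 p q) (a1 : E1 ⊆ E1') (a0 : E0 ⊆ E0') :
    Apx Y Z r s E1' E0' p q :=
  let ⟨T, K, h1, h2, h3⟩ := h
  ⟨T, K, fun ω a => h1 ω fun e => a (a1 e), fun ω a => h2 ω fun e => a (a0 e),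
    fun ω a ω' b => h3 ω (fun e => a (a1 e)) ω' fun e => b (a0 e)⟩

theorem Apx.of_le (h : ∀ ω ω', p ω ≤ q ω') : Apx Y Z r s E1 E0 p q :=
  ⟨fun _ => ∅, fun _ => ∅, by simp, by simp, fun ω _ ω' _ a => absurd (h ω ω') a.not_ge⟩

theorem Apx.var (hs : 1 ≤ s) (e : ℕ) {P Q : Ω → Bool} (hP : ∀ ω, P ω = true → Y ω e)
    (hQ : ∀ ω, Q ω = false → Z ω e) :
    Apx Y Z s s E1 E0 (fun ω => if P ω then 1 else 0) fun ω => if Q ω then 1 else 0 := by
  refine ⟨fun ω => if P ω then {e} else ∅, fun ω => if Q ω then ∅ else {e}, fun ω _ => ?_,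
    fun ω _ => ?_, fun ω _ ω' _ => ?_⟩
  · cases a : P ω
    · simp [a]
    · simpa [a, hs] using hP ω a
  · cases a : Q ω
    · simpa [a, hs] using hQ ω a
    · simp [a]
  · cases a : P ω <;> cases b : Q ω' <;> simp [a, b]

theorem Apx.op {k d : ℕ} (hk : k ≤ d) (φ : (Fin k → ℝ) →o ℝ) {p q : Fin k → Ω → ℝ}
    (h : ∀ i, Apx Y Z s s E1 E0 (p i) (q i)) :
    Apx Y Z (d * s) (d * s) E1 E0 (fun ω => φ fun i => p i ω) fun ω => φ fun i => q i ω := by
  choose T K h1 h2 h3 using h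
  have key : ∀ F : Fin k → Finset ℕ, (∀ i, (F i).card ≤ s) → (univ.biUnion F).card ≤ d * s :=
    fun F hF => card_biUnion_le.trans ((sum_le_card_nsmul _ _ _ fun i _ => hF i).trans
      (by simpa using Nat.mul_le_mul_right _ hk))
  refine ⟨fun ω => univ.biUnion fun i => T i ω, fun ω => univ.biUnion fun i => K i ω,
    fun ω a => ⟨key _ fun i => (h1 i ω a).1, fun e he => ?_⟩,
    fun ω a => ⟨key _ fun i => (h2 i ω a).1, fun e he => ?_⟩,
    fun ω a ω' b c d => c.not_ge (φ.mono fun i => not_lt.1 fun e => h3 i ω a ω' b e ?_)⟩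
  · obtain ⟨i, -, hi⟩ := mem_biUnion.1 he
    exact (h1 i ω a).2 e hi
  · obtain ⟨i, -, hi⟩ := mem_biUnion.1 he
    exact (h2 i ω a).2 e hi
  · exact d.mono (subset_biUnion_of_mem (fun i => T i ω) (mem_univ i))
      (subset_biUnion_of_mem (fun i => K i ω') (mem_univ i))

open Classical in
theorem Apx.short [Fintype Ω] {δ n : ℕ}
    (hY : ∀ T : Finset ℕ, T.card = n + 1 → #{ω | ∀ e ∈ T, Y ω e} ≤ δ)
    (h : Apx Y Z r s E1 E0 p q) :
    ∃ E : Finset Ω, E.card ≤ s ^ (n + 1) * δ ∧ Apx Y Z n s (E1 ∪ E) E0 p q := by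
  obtain ⟨T, K, h1, h2, h3⟩ := h
  obtain ⟨E, a1, a2, a3⟩ := switch E0ᶜ K q s (fun ω a => (h2 ω (mem_compl.1 a)).1) (n + 1) ∅
  have key : ∀ ω, ∃ T' : Finset ℕ, ω ∉ E1 ∪ E.biUnion (fun T => {ω | ∀ e ∈ T, Y ω e}) →
      (T'.card ≤ n ∧ ∀ e ∈ T', Y ω e) ∧ ∀ ω' ∉ E0, q ω' < p ω → ¬Disjoint T' (K ω') := by
    intro ω
    by_cases hω : ω ∈ E1 ∪ E.biUnion (fun T => {ω | ∀ e ∈ T, Y ω e})
    · exact ⟨∅, fun a => absurd hω a⟩
    rw [mem_union, not_or] at hω
    have b0 : ∀ ω' ∈ E0ᶜ, q ω' < p ω → ∃ e ∈ K ω', Y ω e := fun ω' a b => by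
      obtain ⟨e, e1, e2⟩ := not_disjoint_iff.1 (h3 ω hω.1 ω' (mem_compl.1 a) b)
      exact ⟨e, e2, (h1 ω hω.1).2 e e1⟩
    rcases a3 (Y ω) (p ω) (by simp) b0 with ⟨T, b3, b4, b5⟩ | ⟨T, b3, b4⟩
    · exact ⟨T, fun _ => ⟨⟨by simp at b3; omega, b5⟩, fun ω' a => b4 ω' (mem_compl.2 a)⟩⟩
    · exact absurd (mem_biUnion.2 ⟨T, b3, by simpa using b4⟩) hω.2
  choose T' hT' using key
  refine ⟨E.biUnion fun T => {ω | ∀ e ∈ T, Y ω e}, ?_, T', K, fun ω a => (hT' ω a).1, h2,
    fun ω a => (hT' ω a).2⟩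
  refine card_biUnion_le.trans ((sum_le_card_nsmul _ _ _ fun T hT =>
    hY T (by simpa using a2 T hT)).trans ?_)
  exact Nat.mul_le_mul_right _ a1

open Classical in
/-- Outside the error set, the value on a positive test is matched on some negative test. -/
theorem Apx.exists_le [Fintype Ω] {ε : ℕ} (hZ : ∀ e, #{ω | Z ω e} ≤ ε)
    (h : Apx Y Z r s E1 E0 p q) (hE : E0.card + r * ε < Fintype.card Ω) :
    ∀ ω ∉ E1, ∃ ω', p ω ≤ q ω' := by
  intro ω hω
  obtain ⟨T, K, h1, h2, h3⟩ := h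
  have b2 : (E0 ∪ (T ω).biUnion fun e => {ω | Z ω e}).card < (univ : Finset Ω).card := by
    refine ((card_union_le _ _).trans ?_).trans_lt hE
    refine Nat.add_le_add_left (card_biUnion_le.trans
      ((sum_le_card_nsmul _ _ _ fun e _ => hZ e).trans ?_)) _
    exact Nat.mul_le_mul_right _ (h1 ω hω).1
  obtain ⟨ω', -, b3⟩ := exists_mem_notMem_of_card_lt_card b2
  rw [mem_union, not_or] at b3
  refine ⟨ω', not_lt.1 fun a => ?_⟩
  obtain ⟨e, e1, e2⟩ := not_disjoint_iff.1 (h3 ω hω ω' b3.1 a)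
  exact b3.2 (mem_biUnion.2 ⟨e, e1, by simpa using (h2 ω' b3.1).2 e e2⟩)

theorem vals_concat (x : List Bool) (c : List Gate) (g : Gate) :
    vals x (c ++ [g]) = vals x c ++ [g.val x (vals x c)] := by
  simp [vals]

theorem length_vals (x : List Bool) (c : List Gate) : (vals x c).length = c.length := by
  induction c using List.reverseRecOn with
  | nil => rfl
  | append_singleton c g ih => simp [vals_concat, ih]

theorem getD_vals_concat (x : List Bool) (c : List Gate) (g : Gate) (j : ℕ) :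
    (vals x (c ++ [g])).getD j 0 =
      if j = c.length then g.val x (vals x c) else (vals x c).getD j 0 := by
  rw [vals_concat]
  have := length_vals x c
  rcases lt_trichotomy j c.length with h | h | h
  · rw [if_neg h.ne, List.getD_append _ _ _ _ (by omega)]
  · rw [if_pos h, List.getD_append_right _ _ _ _ (by omega)]
    simp [this, h]
  · rw [if_neg h.ne', List.getD_eq_default _ _ (by simp; omega),
      List.getD_eq_default _ _ (by omega)]

theorem vals_mono {x y : List Bool} (h : ∀ i, x.getD i false = true → y.getD i false = true)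
    (c : List Gate) (j : ℕ) : (vals x c).getD j 0 ≤ (vals y c).getD j 0 := by
  induction c using List.reverseRecOn generalizing j with
  | nil => simp [vals]
  | append_singleton c g ih =>
    rw [getD_vals_concat, getD_vals_concat]
    split_ifs
    · cases g with
      | inp i =>
        simp only [Gate.val]
        split_ifs with a b
        exacts [le_rfl, absurd (h i a) b, zero_le_one, le_rfl]
      | op d φ a => exact φ.mono fun i => ih (a i)
    · exact ih j

open Classical in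
theorem apx_vals [Fintype Ω] {δ d : ℕ} (hd : 1 ≤ d)
    (hY : ∀ T : Finset ℕ, T.card = s + 1 → #{ω | ∀ e ∈ T, Y ω e} ≤ δ)
    (hZ : ∀ T : Finset ℕ, T.card = s + 1 → #{ω | ∀ e ∈ T, Z ω e} ≤ δ) {y z : Ω → List Bool}
    (hi : ∀ i, Apx Y Z s s ∅ ∅ (fun ω => if (y ω).getD i false then 1 else 0)
      fun ω => if (z ω).getD i false then 1 else 0) (c : List Gate) (hf : ∀ g ∈ c, g.fanin ≤ d) :
    ∃ E1 E0 : Finset Ω, E1.card ≤ c.length * ((d * s) ^ (s + 1) * δ) ∧
      E0.card ≤ c.length * ((d * s) ^ (s + 1) * δ) ∧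
      ∀ j, Apx Y Z s s E1 E0 (fun ω => (vals (y ω) c).getD j 0)
        fun ω => (vals (z ω) c).getD j 0 := by
  induction c using List.reverseRecOn with
  | nil => exact ⟨∅, ∅, by simp, by simp, fun j => .of_le (by simp [vals])⟩
  | append_singleton c g ih =>
    obtain ⟨E1, E0, h1, h0, h⟩ := ih fun g hg => hf g (List.mem_append_left _ hg)
    have hg := hf g (by simp)
    have key : ∃ F1 F0 : Finset Ω, F1.card ≤ (d * s) ^ (s + 1) * δ ∧
        F0.card ≤ (d * s) ^ (s + 1) * δ ∧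
        Apx Y Z s s (E1 ∪ F1) (E0 ∪ F0) (fun ω => g.val (y ω) (vals (y ω) c))
          fun ω => g.val (z ω) (vals (z ω) c) := by
      cases g with
      | inp i => exact ⟨∅, ∅, by simp, by simp, (hi i).mono (by simp) (by simp)⟩
      | op k φ a =>
        obtain ⟨F1, a1, a2⟩ := (Apx.op hg φ fun i => h (a i)).short hY
        obtain ⟨F0, a3, a4⟩ := a2.symm.short hZ
        have a5 := a4.symm
        simp only [neg_neg] at a5
        exact ⟨F1, F0, a1, a3.trans (by gcongr; exact Nat.le_mul_of_pos_left _ hd), a5⟩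
    obtain ⟨F1, F0, a1, a0, a⟩ := key
    refine ⟨E1 ∪ F1, E0 ∪ F0, ?_, ?_, fun j => ?_⟩
    · refine (card_union_le _ _).trans ?_
      rw [List.length_append, List.length_singleton, add_mul, one_mul]
      omega
    · refine (card_union_le _ _).trans ?_
      rw [List.length_append, List.length_singleton, add_mul, one_mul]
      omega
    · simp only [getD_vals_concat]
      by_cases e : j = c.length
      · simpa only [if_pos e] using a
      · simp only [if_neg e]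
        exact (h j).mono subset_union_left subset_union_left

open Classical in
/-- The lower bound in the form used: one positive test on which no gate exceeds its largest value
on negative tests, and one negative test with the dual property. -/
theorem fool [Fintype Ω] {δ ε d : ℕ} (hd : 1 ≤ d)
    (hY : ∀ T : Finset ℕ, T.card = s + 1 → #{ω | ∀ e ∈ T, Y ω e} ≤ δ)
    (hZ : ∀ T : Finset ℕ, T.card = s + 1 → #{ω | ∀ e ∈ T, Z ω e} ≤ δ)
    (hY' : ∀ e, #{ω | Y ω e} ≤ ε) (hZ' : ∀ e, #{ω | Z ω e} ≤ ε) {y z : Ω → List Bool}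
    (hi : ∀ i, Apx Y Z s s ∅ ∅ (fun ω => if (y ω).getD i false then 1 else 0)
      fun ω => if (z ω).getD i false then 1 else 0) (c : List Gate) (hf : ∀ g ∈ c, g.fanin ≤ d)
    (hc : c.length * ((d * s) ^ (s + 1) * δ) + s * ε < Fintype.card Ω) :
    (∃ ω, ∀ j, ∃ ω', (vals (y ω) c).getD j 0 ≤ (vals (z ω') c).getD j 0) ∧
      ∃ ω, ∀ j, ∃ ω', (vals (y ω') c).getD j 0 ≤ (vals (z ω) c).getD j 0 := by
  obtain ⟨E1, E0, h1, h0, h⟩ := apx_vals hd hY hZ hi c hf
  constructor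
  · obtain ⟨ω, -, hω⟩ := exists_mem_notMem_of_card_lt_card (s := E1) (t := univ)
      (by rw [card_univ]; omega)
    exact ⟨ω, fun j => (h j).exists_le hZ' (by omega) ω hω⟩
  · obtain ⟨ω, -, hω⟩ := exists_mem_notMem_of_card_lt_card (s := E0) (t := univ)
      (by rw [card_univ]; omega)
    exact ⟨ω, fun j => ((h j).symm.exists_le hY' (by omega) ω hω).imp fun _ => neg_le_neg_iff.1⟩

end Pool.Agent.MP_8a92de_lc.H12
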