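import Mathlib

/-! Colourings given by polynomials of bounded degree are spread. -/

namespace Pool.Agent.MP_8a92de_lc.H12

open Finset Polynomial

/-- Value at `v` of the polynomial with coefficient vector `ω`. -/
def ev {Q D : ℕ} (ω : Fin D → ZMod Q) (v : ℕ) : ZMod Q := ∑ i, ω i * (v : ZMod Q) ^ (i : ℕ)

/-- The colouring given by `ω`. -/
def col {Q D : ℕ} (m : ℕ) (ω : Fin D → ZMod Q) (v : ℕ) : ℕ := (ev ω v).val % m

/-- `P` depends only on the values on `T`. -/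
def Dep (T : Finset ℕ) (P : (ℕ → ℕ) → Prop) : Prop :=
  ∀ g g' : ℕ → ℕ, (∀ u ∈ T, g u = g' u) → P g → P g'

variable {Q D m : ℕ} [Fact Q.Prime]

theorem exists_shift (T : Finset ℕ) (hT : ∀ w ∈ T, w < Q) (hD : T.card < D) {v : ℕ} (hv : v < Q)
    (hv' : v ∉ T) : ∃ z : Fin D → ZMod Q, (∀ w ∈ T, ev z w = 0) ∧ ev z v ≠ 0 := by
  let Z : (ZMod Q)[X] := ∏ w ∈ T, (X - C (w : ZMod Q))
  have h1 : Z.natDegree < D := by
    refine lt_of_le_of_lt ?_ hD
    refine (natDegree_prod_le _ _).trans ?_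
    simp only [natDegree_X_sub_C]
    simp
  have h2 : ∀ w : ℕ, ev (fun i : Fin D => Z.coeff i) w = ∏ u ∈ T, ((w : ZMod Q) - u) := fun w => by
    rw [ev, Fin.sum_univ_eq_sum_range (fun i => Z.coeff i * (w : ZMod Q) ^ i),
      ← eval_eq_sum_range' h1]
    simp [Z, eval_prod]
  refine ⟨fun i => Z.coeff i, fun w hw => ?_, ?_⟩
  · rw [h2]
    exact prod_eq_zero hw (sub_self _)
  · rw [h2]
    refine prod_ne_zero_iff.2 fun u hu e => hv' ?_
    have := (ZMod.natCast_eq_natCast_iff' _ _ _).1 (sub_eq_zero.1 e)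
    rw [Nat.mod_eq_of_lt hv, Nat.mod_eq_of_lt (hT u hu)] at this
    exact this ▸ hu

theorem ev_add (ω z : Fin D → ZMod Q) (a : ZMod Q) (v : ℕ) :
    ev (ω + a • z) v = ev ω v + a * ev z v := by
  simp [ev, add_mul, sum_add_distrib, mul_sum, mul_assoc]

open Classical in
theorem step (hm : m ≤ Q) (T : Finset ℕ) (hT : ∀ w ∈ T, w < Q) (hD : T.card < D) {u v : ℕ}
    (hu : u ∈ T) (hv : v < Q) (hv' : v ∉ T) {P : (ℕ → ℕ) → Prop} (hP : Dep T P) (c : ℕ → ℕ) :
    m * #{ω : Fin D → ZMod Q | P (col m ω) ∧ col m ω v = c (col m ω u)} ≤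
      2 * #{ω : Fin D → ZMod Q | P (col m ω)} := by
  obtain ⟨z, h1, h2⟩ := exists_shift T hT hD hv hv'
  have h3 : ∀ (ω : Fin D → ZMod Q) (a : ZMod Q), ∀ w ∈ T, col m (ω + a • z) w = col m ω w :=
    fun ω a w hw => by rw [col, ev_add, h1 w hw, mul_zero, add_zero, col]
  have hQ : 0 < Q := (Fact.out : Q.Prime).pos
  have key := card_le_card_of_injOn
    (s := ({ω : Fin D → ZMod Q | P (col m ω) ∧ col m ω v = c (col m ω u)} : Finset _) ×ˢ
      (univ : Finset (ZMod Q)))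
    (t := ({ω : Fin D → ZMod Q | P (col m ω)} : Finset _) ×ˢ range (Q / m + 1))
    (fun p => (p.1 + p.2 • z, (ev p.1 v).val / m)) (fun p hp => ?_) fun p hp p' hp' e => ?_
  · rw [card_product, card_product, card_univ, ZMod.card, card_range] at key
    refine Nat.le_of_mul_le_mul_right ?_ hQ
    have h4 := Nat.mul_div_le Q m
    have h5 := Nat.mul_le_mul_left m key
    generalize #{ω : Fin D → ZMod Q | P (col m ω) ∧ col m ω v = c (col m ω u)} = a at *
    generalize #{ω : Fin D → ZMod Q | P (col m ω)} = b at *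
    have h6 : b * (m * (Q / m) + m) ≤ b * (Q + Q) := by gcongr
    nlinarith
  · simp only [coe_product, coe_filter, mem_univ, true_and, coe_univ, Set.mem_prod,
      Set.mem_ofPred_eq, Set.mem_univ, and_true, coe_range, Set.mem_Iio] at hp ⊢
    exact ⟨hP _ _ (fun w hw => (h3 _ _ w hw).symm) hp.1,
      Nat.lt_succ_of_le (Nat.div_le_div_right (ZMod.val_lt _).le)⟩
  · simp only [coe_product, coe_filter, mem_univ, true_and, coe_univ, Set.mem_prod,
      Set.mem_ofPred_eq, Set.mem_univ, and_true, Prod.mk.injEq] at hp hp' e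
    have h4 : col m p.1 u = col m p'.1 u := by rw [← h3 p.1 p.2 u hu, e.1, h3 _ _ u hu]
    have h5 : col m p.1 v = col m p'.1 v := by rw [hp.2, hp'.2, h4]
    have h6 : ev p.1 v = ev p'.1 v := ZMod.val_injective Q (by
      rw [← Nat.div_add_mod (ev p.1 v).val m, ← Nat.div_add_mod (ev p'.1 v).val m, e.2]
      exact congrArg _ h5)
    have h7 := congrArg (ev · v) e.1
    simp only [ev_add, h6, add_right_inj] at h7
    have h8 := mul_right_cancel₀ h2 h7
    exact Prod.ext (add_right_cancel (h8 ▸ e.1 :)) h8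

theorem spread_arith {m ρ a a' b b' c : ℕ} (h5 : a ≤ a') (h4 : m ^ ρ * a' ≤ 2 ^ ρ * b)
    (hb : b = b') (h3 : m * b' ≤ 2 * c) : m ^ (ρ + 1) * a ≤ 2 ^ (ρ + 1) * c :=
  calc _ ≤ m * (m ^ ρ * a') := by rw [pow_succ', mul_assoc]; gcongr
    _ ≤ m * (2 ^ ρ * b) := by gcongr
    _ = 2 ^ ρ * (m * b') := by rw [hb]; ring
    _ ≤ 2 ^ ρ * (2 * c) := by gcongr
    _ = _ := by ring

open Classical in
theorem spread_aux (hm : m ≤ Q) {A : ℕ → (ℕ → ℕ) → Prop} {p1 p2 : ℕ → ℕ} {c1 c2 : ℕ → ℕ → ℕ}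
    (K : Finset ℕ) (hK : ∀ e ∈ K, p1 e ≠ p2 e ∧ p1 e < Q ∧ p2 e < Q)
    (hi : Set.InjOn (fun e => (p1 e, p2 e)) K)
    (hA : ∀ e g, A e g → g (p1 e) = c1 e (g (p2 e)) ∧ g (p2 e) = c2 e (g (p1 e))) (ρ : ℕ) :
    ∀ (T : Finset ℕ) (P : (ℕ → ℕ) → Prop), Dep T P → (∀ w ∈ T, w < Q) → T.card + 2 * ρ ≤ D →
      (T.card + 2 * ρ) ^ 2 < K.card →
      m ^ ρ * #{ω : Fin D → ZMod Q | P (col m ω) ∧ ∀ e ∈ K, A e (col m ω)} ≤
        2 ^ ρ * #{ω : Fin D → ZMod Q | P (col m ω)} := by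
  induction ρ with
  | zero =>
    intro T P _ _ _ _
    simp only [pow_zero, one_mul]
    exact card_le_card (monotone_filter_right _ fun ω _ h => h.1)
  | succ ρ ih =>
    intro T P hP hT hD hc
    have h1 : ∃ (u v : ℕ) (c : ℕ → ℕ), u ≠ v ∧ u < Q ∧ v < Q ∧ v ∉ T ∧
        ∀ g : ℕ → ℕ, (∀ e ∈ K, A e g) → g v = c (g u) := by
      by_contra h
      have h2 : ∀ e ∈ K, p1 e ∈ T ∧ p2 e ∈ T := fun e he => by
        obtain ⟨a1, a2, a3⟩ := hK e he
        exact ⟨by_contra fun a => h ⟨_, _, c1 e, a1.symm, a3, a2, a, fun g hg =>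
          (hA e g (hg e he)).1⟩, by_contra fun a => h ⟨_, _, c2 e, a1, a2, a3, a, fun g hg =>
          (hA e g (hg e he)).2⟩⟩
      have h3 := card_le_card_of_injOn (t := T ×ˢ T) _ (fun e he => by simpa using h2 e he) hi
      rw [card_product] at h3
      nlinarith [Nat.zero_le (2 * (ρ + 1)), Nat.zero_le T.card]
    obtain ⟨u, v, c, a1, a2, a3, a4, a5⟩ := h1
    have b1 := card_insert_le u T
    have b2 := card_insert_le v (insert u T)
    have b3 := step (D := D) hm (insert u T) (by simpa [a2] using hT) (by omega)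
      (mem_insert_self _ _) a3 (by simp [a4, a1.symm])
      (P := P) (fun g g' e => hP g g' fun w hw => e w (mem_insert_of_mem hw)) c
    have b4 := ih (insert v (insert u T)) (fun g => P g ∧ g v = c (g u))
      (fun g g' e h => ⟨hP g g' (fun w hw => e w (by simp [hw])) h.1, by
        rw [← e v (by simp), ← e u (by simp), h.2]⟩) (by simpa [a2, a3] using hT) (by omega)
      (lt_of_le_of_lt (Nat.pow_le_pow_left (by omega) 2) hc)
    refine spread_arith (card_le_card fun ω h => ?_) b4 (by congr) b3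
    simp only [mem_filter, mem_univ, true_and] at h ⊢
    exact ⟨⟨h.1, a5 _ h.2⟩, h.2⟩

open Classical in
/-- Both bounds used by the approximation method. -/
theorem spread (hm : m ≤ Q) (hm0 : 0 < m) {A : ℕ → (ℕ → ℕ) → Prop} {p1 p2 : ℕ → ℕ}
    {c1 c2 : ℕ → ℕ → ℕ} (hK : ∀ e g, A e g → p1 e ≠ p2 e ∧ p1 e < Q ∧ p2 e < Q)
    (hi : ∀ g e e', A e g → A e' g → p1 e = p1 e' → p2 e = p2 e' → e = e')
    (hA : ∀ e g, A e g → g (p1 e) = c1 e (g (p2 e)) ∧ g (p2 e) = c2 e (g (p1 e))) {ρ : ℕ}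
    (hD : 2 * ρ ≤ D) (hρ : 1 ≤ ρ) :
    (∀ K : Finset ℕ, K.card = (2 * ρ) ^ 2 + 1 →
      #{ω : Fin D → ZMod Q | ∀ e ∈ K, A e (col m ω)} ≤
        2 ^ ρ * Fintype.card (Fin D → ZMod Q) / m ^ ρ) ∧
    ∀ e, #{ω : Fin D → ZMod Q | A e (col m ω)} ≤ 2 * Fintype.card (Fin D → ZMod Q) / m := by
  constructor
  · intro K hc
    rcases ({ω : Fin D → ZMod Q | ∀ e ∈ K, A e (col m ω)} : Finset _).eq_empty_or_nonempty with
      h | ⟨ω0, h⟩
    · rw [h]
      simp
    rw [mem_filter] at h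
    have := spread_aux (D := D) hm K (fun e he => hK e _ (h.2 e he))
      (fun e he e' he' a => hi _ e e' (h.2 e he) (h.2 e' he') (congrArg Prod.fst a)
        (congrArg Prod.snd a)) hA ρ ∅ (fun _ => True) (fun _ _ _ => id) (by simp) (by simpa)
      (by simp [hc])
    rw [Nat.le_div_iff_mul_le (by positivity), mul_comm]
    simpa using this
  · intro e
    rcases ({ω : Fin D → ZMod Q | A e (col m ω)} : Finset _).eq_empty_or_nonempty with
      h | ⟨ω0, h⟩
    · rw [h]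
      simp
    rw [mem_filter] at h
    obtain ⟨a1, a2, a3⟩ := hK e _ h.2
    have := step (D := D) hm {p1 e} (by simpa) (by simp; omega) (mem_singleton_self _) a3
      (by simpa using a1.symm) (P := fun _ => True) (fun _ _ _ => id) (c2 e)
    rw [Nat.le_div_iff_mul_le hm0, mul_comm]
    refine le_trans (Nat.mul_le_mul_left _ (card_le_card fun ω h => ?_)) (this.trans ?_)
    · simp only [mem_filter, mem_univ, true_and] at h ⊢
      exact (hA e _ h).2
    · simp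

end Pool.Agent.MP_8a92de_lc.H12
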