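import Pool.Agent.MP_8a92de_lc.H12.Apx
import Pool.Agent.MP_8a92de_lc.H12.Des

/-! The partite clique function, its test inputs, and words made of blocks. -/

namespace Pool.Agent.MP_8a92de_lc.H12

open Finset

/-- Number of vertices. -/
def nV (m : ℕ) : ℕ := (m + 1) * m

/-- Length of a block. -/
def nW (m : ℕ) : ℕ := nV m * nV m

/-- Length of a word. -/
def nN (m : ℕ) : ℕ := (2 * m + 1) * nW m

/-- A clique with one vertex in each of the `m + 1` parts. -/
def Clq (m : ℕ) (x : ℕ → Bool) : Prop :=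
  ∃ h : ℕ → ℕ, (∀ i < m + 1, h i < m) ∧ ∀ i < m + 1, ∀ j < m + 1, i ≠ j →
    x ((i * m + h i) * nV m + (j * m + h j)) = true

/-- The edge `e` lies in the clique given by `g`. -/
def YA (m e : ℕ) (g : ℕ → ℕ) : Prop :=
  e < nW m ∧ e / nV m / m ≠ e % nV m / m ∧ g (e / nV m / m) = e / nV m % m ∧
    g (e % nV m / m) = e % nV m % m

/-- The edge `e` is monochromatic under `g`. -/
def ZA (m e : ℕ) (g : ℕ → ℕ) : Prop :=
  e < nW m ∧ e / nV m ≠ e % nV m ∧ g (e / nV m) = g (e % nV m)

open Classical in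
/-- Positive test. -/
noncomputable def yw (m : ℕ) (g : ℕ → ℕ) : List Bool :=
  (List.range (nW m)).map fun e => decide (YA m e g)

open Classical in
/-- Negative test. -/
noncomputable def zw (m : ℕ) (g : ℕ → ℕ) : List Bool :=
  (List.range (nW m)).map fun e => !decide (ZA m e g)

theorem getD_map_range (n : ℕ) (f : ℕ → Bool) (e : ℕ) :
    ((List.range n).map f).getD e false = (decide (e < n) && f e) := by
  by_cases h : e < n <;> simp [List.getD_eq_getElem?_getD, h]

theorem divmod {a b n : ℕ} (h : b < n) : (a * n + b) / n = a ∧ (a * n + b) % n = b := by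
  rw [mul_comm, Nat.mul_add_div (by omega), Nat.mul_add_mod, Nat.div_eq_of_lt h,
    Nat.mod_eq_of_lt h]
  simp

theorem lt_mul_of {a b n k : ℕ} (h : b < n) (h' : a < k) : a * n + b < k * n := by nlinarith

theorem edge_lt {m i j a b : ℕ} (hi : i < m + 1) (hj : j < m + 1) (ha : a < m) (hb : b < m) :
    (i * m + a) * nV m + (j * m + b) < nW m :=
  lt_mul_of (lt_mul_of hb hj) (lt_mul_of ha hi)

theorem Clq.mono {m : ℕ} {x y : ℕ → Bool} (h : Clq m x)
    (e : ∀ i < nW m, x i = true → y i = true) : Clq m y :=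
  let ⟨g, h1, h2⟩ := h
  ⟨g, h1, fun i hi j hj a => e _ (edge_lt hi hj (h1 i hi) (h1 j hj)) (h2 i hi j hj a)⟩

theorem clq_true {m : ℕ} (hm : 0 < m) : Clq m fun _ => true :=
  ⟨fun _ => 0, fun _ _ => hm, fun _ _ _ _ _ => rfl⟩

theorem clq_yw {m : ℕ} {g : ℕ → ℕ} (hg : ∀ i, g i < m) :
    Clq m fun e => (yw m g).getD e false := by
  refine ⟨g, fun i _ => hg i, fun i hi j hj a => ?_⟩
  have h1 := edge_lt hi hj (hg i) (hg j)
  have h2 := divmod (a := i * m + g i) (show j * m + g j < nV m from lt_mul_of (hg j) hj)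
  simp only [yw, getD_map_range, YA, h1, h2.1, h2.2, (divmod (hg i)).1, (divmod (hg i)).2,
    (divmod (hg j)).1, (divmod (hg j)).2]
  simpa using a

theorem not_clq_zw {m : ℕ} {g : ℕ → ℕ} (hg : ∀ i, g i < m) :
    ¬Clq m fun e => (zw m g).getD e false := by
  rintro ⟨h, h1, h2⟩
  obtain ⟨i, hi, j, hj, a, b⟩ := exists_ne_map_eq_of_card_lt_of_maps_to (s := range (m + 1))
    (t := range m) (by simp) (f := fun i => g (i * m + h i)) fun i _ => by simpa using hg _
  rw [mem_range] at hi hj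
  have h3 := h2 i hi j hj a
  have h4 := edge_lt hi hj (h1 i hi) (h1 j hj)
  have h5 := divmod (a := i * m + h i) (show j * m + h j < nV m from lt_mul_of (h1 j hj) hj)
  have h6 : i * m + h i ≠ j * m + h j := fun e => a (by
    rw [← (divmod (a := i) (h1 i hi)).1, e, (divmod (h1 j hj)).1])
  simp only [zw, getD_map_range, ZA, h4, h5.1, h5.2] at h3
  simp [h6, b] at h3

/-- The word whose block `b` has the bits `β b`. -/
def word (m : ℕ) (β : ℕ → ℕ → Bool) : List Bool :=
  (List.range (nN m)).map fun p => β (p / nW m) (p % nW m)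

/-- Block `b` of a word. -/
def blk (m : ℕ) (w : List Bool) (b e : ℕ) : Bool := w.getD (b * nW m + e) false

theorem length_word (m : ℕ) (β : ℕ → ℕ → Bool) : (word m β).length = nN m := by simp [word]

theorem blk_word {m b e : ℕ} (β : ℕ → ℕ → Bool) (hb : b < 2 * m + 1) (he : e < nW m) :
    blk m (word m β) b e = β b e := by
  have : b * nW m + e < nN m := lt_mul_of he hb
  simp only [blk, word, getD_map_range, this, (divmod he).1, (divmod he).2]
  simp

theorem word_mono {m : ℕ} {β β' : ℕ → ℕ → Bool} (h : ∀ b e, β b e = true → β' b e = true)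
    (p : ℕ) : (word m β).getD p false = true → (word m β').getD p false = true := by
  simp only [word, getD_map_range, Bool.and_eq_true]
  exact fun a => ⟨a.1, h _ _ a.2⟩

/-- A word with one free block. -/
def hole (m b0 : ℕ) (γ : ℕ → ℕ → Bool) (s : List Bool) : List Bool :=
  word m fun b e => if b = b0 then s.getD e false else γ b e

theorem quarter {a b c n : ℕ} (hc : 0 < c) (h : 4 * (a * b) ≤ c) : 4 * (a * (b * n / c)) ≤ n := by
  refine Nat.le_of_mul_le_mul_right ?_ hc
  have h1 := Nat.div_mul_le_self (b * n) c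
  calc _ = 4 * a * (b * n / c * c) := by ring
    _ ≤ 4 * a * (b * n) := by gcongr
    _ = 4 * (a * b) * n := by ring
    _ ≤ c * n := by gcongr
    _ = _ := by ring

theorem fool_hole {Q D m ρ d : ℕ} [Fact Q.Prime] (hQ : nV m ≤ Q) (hD : 2 * ρ ≤ D) (hρ : 1 ≤ ρ)
    (hd : 1 ≤ d) (c : List Gate) (hf : ∀ g ∈ c, g.fanin ≤ d)
    (h1 : 4 * (c.length * (d * (2 * ρ) ^ 2) ^ ((2 * ρ) ^ 2 + 1) * 2 ^ ρ) ≤ m ^ ρ)
    (h2 : 4 * ((2 * ρ) ^ 2 * 2) ≤ m) (b0 : ℕ) (γ : ℕ → ℕ → Bool) :
    (∃ ω : Fin D → ZMod Q, ∀ j, ∃ ω' : Fin D → ZMod Q,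
      (vals (hole m b0 γ (yw m (col m ω))) c).getD j 0 ≤
        (vals (hole m b0 γ (zw m (col m ω'))) c).getD j 0) ∧
    ∃ ω : Fin D → ZMod Q, ∀ j, ∃ ω' : Fin D → ZMod Q,
      (vals (hole m b0 γ (yw m (col m ω'))) c).getD j 0 ≤
        (vals (hole m b0 γ (zw m (col m ω))) c).getD j 0 := by
  classical
  have hs : 1 ≤ (2 * ρ) ^ 2 := Nat.one_le_pow _ _ (by omega)
  have hm : 0 < m := by omega
  have hV : m ≤ nV m := Nat.le_mul_of_pos_left _ (by omega)
  have hV1 : ∀ e < nW m, e / nV m < nV m := fun e he => Nat.div_lt_of_lt_mul he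
  have hV2 : ∀ e, e % nV m < nV m := fun e => Nat.mod_lt _ (by omega)
  have hY := spread (Q := Q) (D := D) (hV.trans hQ) hm (A := YA m) (p1 := fun e => e / nV m / m)
    (p2 := fun e => e % nV m / m) (c1 := fun e _ => e / nV m % m) (c2 := fun e _ => e % nV m % m)
    (fun e g h => ⟨h.2.1, ((Nat.div_le_self _ _).trans_lt (hV1 e h.1)).trans_le hQ,
      ((Nat.div_le_self _ _).trans_lt (hV2 e)).trans_le hQ⟩)
    (fun g e e' h h' a b => by
      have a1 := h.2.2.1.symm.trans ((congrArg g a).trans h'.2.2.1)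
      have a2 := h.2.2.2.symm.trans ((congrArg g b).trans h'.2.2.2)
      rw [← Nat.div_add_mod e (nV m), ← Nat.div_add_mod e' (nV m),
        ← Nat.div_add_mod (e / nV m) m, ← Nat.div_add_mod (e' / nV m) m,
        ← Nat.div_add_mod (e % nV m) m, ← Nat.div_add_mod (e' % nV m) m, a1, a2]
      exact congrArg₂ (fun a b => nV m * (m * a + _) + (m * b + _)) a b)
    (fun e g h => h.2.2) hD hρ
  have hZ := spread (Q := Q) (D := D) (hV.trans hQ) hm (A := ZA m) (p1 := fun e => e / nV m)
    (p2 := fun e => e % nV m) (c1 := fun _ a => a) (c2 := fun _ a => a)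
    (fun e g h => ⟨h.2.1, (hV1 e h.1).trans_le hQ, (hV2 e).trans_le hQ⟩)
    (fun g e e' _ _ a b => by
      rw [← Nat.div_add_mod e (nV m), ← Nat.div_add_mod e' (nV m)]
      exact congrArg₂ (fun a b => nV m * a + b) a b)
    (fun e g h => ⟨h.2.2, h.2.2.symm⟩) hD hρ
  refine fool (s := (2 * ρ) ^ 2) (Y := fun ω e => YA m e (col m ω))
    (Z := fun ω e => ZA m e (col m ω)) hd (fun T hT => by convert hY.1 T hT)
    (fun T hT => by convert hZ.1 T hT) (fun e => by convert hY.2 e) (fun e => by convert hZ.2 e)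
    (fun p => ?_) c hf ?_
  · simp only [hole, word, getD_map_range]
    by_cases a1 : p < nN m
    · by_cases a2 : p / nW m = b0
      · have a3 : p % nW m < nW m := Nat.mod_lt _ (Nat.mul_pos (by omega) (by omega))
        refine .var hs (p % nW m) (fun ω => ?_) fun ω => ?_
        · simp [a2, a3, yw]
        · simp [a1, a2, a3, zw]
      · exact .of_le (by simp [a2])
    · exact .of_le (by simp [a1])
  · have a1 := quarter (n := Fintype.card (Fin D → ZMod Q)) (by positivity) h1
    have a2 := quarter (n := Fintype.card (Fin D → ZMod Q)) hm h2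
    have a3 : 0 < Fintype.card (Fin D → ZMod Q) := Fintype.card_pos
    rw [← mul_assoc]
    omega

end Pool.Agent.MP_8a92de_lc.H12
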