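import Mathlib
import Pool.Prelude.Def_F_458e953d

namespace Pool.Agent.MP_8a92de_lc.H12

/-- Gates of a monotone real circuit: an input bit, or a nondecreasing real function of the values
of `d` gates. -/
inductive Gate : Type
  | inp : ℕ → Gate
  | op : (d : ℕ) → ((Fin d → ℝ) →o ℝ) → (Fin d → ℕ) → Gate

/-- Value of a gate on the input `x`, given the list `v` of the values of the earlier gates. -/
def Gate.val (x : List Bool) (v : List ℝ) : Gate → ℝ
  | .inp i => if x.getD i false then 1 else 0
  | .op _ φ a => φ fun i => v.getD (a i) 0

/-- Fan-in of a gate. -/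
def Gate.fanin : Gate → ℕ
  | .inp _ => 0
  | .op d _ _ => d

/-- The values of all gates of the circuit `c` (a list of gates) on the input `x`. -/
def vals (x : List Bool) (c : List Gate) : List ℝ :=
  c.foldl (fun v g => v ++ [g.val x v]) []

/-- `f` has monotone real circuits of polynomial size and subpolynomial fan-in: for each input
length one circuit and a list of output gates; an output bit is 1 iff the value of its gate is at
least 1. -/
def IsMonoCirc (f : List Bool → List Bool) : Prop :=
  ∃ (q : Polynomial ℕ) (d : ℕ → ℕ), (∀ k, ∃ K, ∀ n, d n ^ k ≤ K * (n + 1)) ∧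
    ∀ n : ℕ, ∃ (c : List Gate) (out : List ℕ), c.length ≤ q.eval n ∧ (∀ g ∈ c, g.fanin ≤ d n) ∧
      ∀ x : List Bool, x.length = n → f x = out.map fun j => decide (1 ≤ (vals x c).getD j 0)

/-- The language is monotone: changing bits from 0 to 1 keeps members members. -/
def IsUp (L : List Bool → Bool) : Prop :=
  ∀ x y : List Bool, List.Forall₂ (· ≤ ·) x y → L x = true → L y = true

/-- Nondeterministic polynomial-time many-one reducibility. -/
def NPReducible (A B : List Bool → Bool) : Prop :=
  ∃ (p : Polynomial ℕ) (g : List Bool × List Bool → List Bool), N68a2faeb.IsPolyTime g ∧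
    ∀ x, A x = true ↔ ∃ w : List Bool, w.length ≤ p.eval x.length ∧ B (g (x, w)) = true

end Pool.Agent.MP_8a92de_lc.H12
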