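import Pool.Agent.Results.MP_8a92de_lc.MonotoneCollapse

/-! The hypotheses of the monotone collapse theorem hold for NP: the class is closed under
nondeterministic reductions, and it has a monotone language that is complete in the monotone
sense. -/

namespace Pool.Agent.MP_8a92de_lc.H12

open Pool.Agent.Lib.Cx H86 N68a2faeb N487b59b3

theorem np_of {β : Type} [Enc β] [hd : Dec β] {A : List Bool → Bool} (R : List Bool × β → Prop)
    (hR : PP R) (M : List Bool → ℕ) (hM : PB M) (sound : ∀ x b, R (x, b) → A x = true)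
    (complete : ∀ x, A x = true → ∃ b, size b ≤ M x ∧ R (x, b)) : A ∈ NP := by
  classical
  obtain ⟨d, p, e⟩ := hd.dec
  obtain ⟨q, hq⟩ := hM
  have : PT fun z : List Bool × List Bool => (d z.2).elim false fun b => decide (R (z.1, b)) := by
    fun_prop
  refine ⟨q.comp (3 * Polynomial.X), _, this.isPolyTime, fun x => ⟨fun h => ?_, ?_⟩⟩
  · obtain ⟨b, h1, h2⟩ := complete x h
    refine ⟨enc b, (h1.trans (hq x)).trans_eq (by simp [size_listBool]), ?_⟩
    simpa only [e, Option.elim, decide_eq_true_eq] using h2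
  · rintro ⟨w, -, h⟩
    revert h
    cases d w with
    | none => simp
    | some b => exact fun h => sound x b (of_decide_eq_true h)

theorem np_closed (A B : List Bool → Bool) (h : NPReducible A B) (hB : B ∈ NP) : A ∈ NP := by
  obtain ⟨p, g, hg, hA⟩ := h
  obtain ⟨p', R, hR, hB⟩ := hB
  have hg' := PT.of_isPolyTime hg
  have hR' := PT.of_isPolyTime hR
  obtain ⟨N, n1, n2⟩ := PB.uniform (t := fun z : List Bool × List Bool => p'.eval (g z).length)
    (by fun_prop) (M := fun x : List Bool => 3 * p.eval x.length) (by fun_prop)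
  refine np_of (fun z : List Bool × List Bool × List Bool => z.2.1.length ≤ p.eval z.1.length ∧
    z.2.2.length ≤ p'.eval (g (z.1, z.2.1)).length ∧ R (g (z.1, z.2.1), z.2.2) = true)
    (by fun_prop) (fun x => 2 * (3 * p.eval x.length) + 1 + 3 * N x) (by fun_prop)
    (fun x b h => (hA x).2 ⟨b.1, h.1, (hB _).2 ⟨b.2, h.2⟩⟩) fun x h => ?_
  obtain ⟨w, h1, h2⟩ := (hA x).1 h
  obtain ⟨w', h3⟩ := (hB _).1 h2
  have := n2 x w (by rw [size_listBool]; omega)
  refine ⟨(w, w'), ?_, h1, h3⟩
  rw [size_prod, size_listBool, size_listBool]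
  simp only at this ⊢
  omega

theorem np_nontrivial : ∃ L ∈ NP, ∃ x y, L x ≠ L y := by
  have h : PT fun z : List Bool × List Bool => decide (z.1 = []) := by fun_prop
  refine ⟨fun x => decide (x = []), ⟨0, _, h.isPolyTime, fun x => ?_⟩, [], [true], by simp⟩
  exact ⟨fun h => ⟨[], by simp, h⟩, fun ⟨_, _, h⟩ => h⟩

/-- The prefix that holds the input in the tableau formula. -/
def pre (x : List Bool) : List Bool := delimit (enc x)

theorem pt_pre : PT pre := by
  change PT fun x => pre x
  simp only [pre, Cmp.delimit_eq]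
  fun_prop

theorem exists_formula {L : List Bool → Bool} (hL : L ∈ NP) :
    ∃ (Φ : ℕ → List (Clause3 ℕ)) (M : ℕ → ℕ), PT (fun x : List Bool => Φ x.length) ∧
      PT (fun x : List Bool => M x.length) ∧ PB (fun x : List Bool => M x.length) ∧
      (∀ n, ∀ v ∈ vars3 (Φ n), v < M n) ∧ ∀ x, (pre x).length ≤ M x.length ∧ (L x = true ↔
        ∃ s : ℕ → Bool, (∀ j < (pre x).length, s j = (pre x).getD j false) ∧
          ∀ c ∈ Φ x.length, c.Holds s) := by
  obtain ⟨p, R, hR, hL⟩ := hL
  have hR' := PT.of_isPolyTime hR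
  have h1 : PT (fun z : List Bool × PT.Raw => R (z.1, unpad z.2.val)) := by
    have : PT (fun z : List Bool × PT.Raw => z.2.val) :=
      PT.enc' (f := fun z : List Bool × PT.Raw => z.2) (by fun_prop)
    unfold unpad
    fun_prop
  obtain ⟨Φ, hΦ, hv, hc⟩ := Cmp.exists_cnf h1
  have hp : ∀ x, (pre x).length = 6 * x.length + 1 := fun x => by
    have := size_listBool x
    simp only [size] at this
    simp [pre, this]
    omega
  have he : ∀ x w, enc (x, PT.Raw.mk w) = pre x ++ w := fun _ _ => rfl
  refine ⟨fun n => Φ (List.replicate (6 * n + 1 + (p.eval n + 1)) ()), fun n => 6 * n + 1 +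
    (p.eval n + 1) + 3 * (Φ (List.replicate (6 * n + 1 + (p.eval n + 1)) ())).length, by fun_prop,
    by fun_prop, by fun_prop, fun n v h => by simpa using hv _ v h, fun x => ⟨?_, ?_⟩⟩
  · rw [hp]
    beta_reduce
    omega
  rw [hL]
  constructor
  · rintro ⟨w, hw, hRw⟩
    obtain ⟨k, hk⟩ := Nat.exists_eq_add_of_le hw
    obtain ⟨s, s1, s2⟩ := (hc (x, ⟨List.replicate k false ++ true :: w⟩)
      (List.replicate (6 * x.length + 1 + (p.eval x.length + 1)) ())
      (by rw [he]; simp [hp]; omega)).1 (by simpa [unpad_pad] using hRw)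
    refine ⟨s, fun j hj => ?_, s2⟩
    rw [s1 j (by rw [he]; simp; omega), List.getD_eq_getElem _ _ hj]
    simp only [he]
    rw [List.getElem_append_left hj]
  · rintro ⟨s, hs, hs'⟩
    let w : List Bool := (List.range (p.eval x.length + 1)).map (fun j => s ((pre x).length + j))
    refine ⟨unpad w, (length_unpad w).trans (by simp [w]), ?_⟩
    refine (hc (x, ⟨w⟩) (List.replicate (6 * x.length + 1 + (p.eval x.length + 1)) ())
      (by rw [he]; simp [w, hp])).2 ⟨s, fun j hj => ?_, hs'⟩
    simp only [he]
    by_cases hj' : j < (pre x).length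
    · rw [List.getElem_append_left hj', hs j hj', List.getD_eq_getElem _ _ hj']
    · rw [List.getElem_append_right (by omega)]
      simp only [w, List.getElem_map, List.getElem_range]
      congr 1
      omega

/-- A double-rail formula followed by an upper bound for an input it accepts. -/
def Chk (z : List Bool × List Bool × List (Clause3 ℕ) × List Bool × List Bool) : Prop :=
  3 * z.2.1.length = z.1.length ∧ tl z.2.1 = enc (z.2.2.1, z.2.2.2.1.length) ∧
    (∀ i < z.2.1.length, z.1.getD (2 * i + (z.2.1.getD i false).toNat) false = true) ∧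
    (∀ i < z.2.2.2.1.length, z.2.2.2.1.getD i false = true →
      z.1.getD (2 * z.2.1.length + i) false = true) ∧
    z.2.2.2.1.length ≤ z.2.1.length ∧ z.2.2.2.2.length ≤ z.2.1.length ∧
    (∀ j < (pre z.2.2.2.1).length, z.2.2.2.2.getD j false = (pre z.2.2.2.1).getD j false) ∧
    ∀ c ∈ z.2.2.1, c.Holds fun j => z.2.2.2.2.getD j false

open Classical in
/-- A monotone language in NP. -/
noncomputable def Uni (w : List Bool) : Bool := decide (∃ b, Chk (w, b))

theorem uni_iff {w : List Bool} : Uni w = true ↔ ∃ b, Chk (w, b) := by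
  simp only [Uni, decide_eq_true_eq]

theorem uni_np : Uni ∈ NP := by
  have := pt_pre
  refine np_of Chk (by change PP fun z => Chk z; unfold Chk Clause3.Holds; fun_prop)
    (fun w => 20 * w.length + 3) (by fun_prop) (fun x b h => uni_iff.2 ⟨b, h⟩)
    fun w h => ?_
  obtain ⟨⟨c, φ, x, s⟩, h⟩ := uni_iff.1 h
  refine ⟨_, ?_, h⟩
  obtain ⟨h1, h2, -, -, h3, h4, -⟩ := h
  have h5 : size (φ, x.length) ≤ c.length := by
    rw [size, ← h2, tl]
    simp
  simp only [size_prod, size_listBool] at *
  omega

theorem uni_up : IsUp Uni := by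
  intro x y h
  simp only [Uni, decide_eq_true_eq]
  rintro ⟨b, h1, h2, h3, h4, h5⟩
  exact ⟨b, h1.trans h.length_eq, h2, fun i a => getD_of_forall₂ h _ (h3 i a),
    fun i a b => getD_of_forall₂ h _ (h4 i a b), h5⟩

theorem isMonoCirc_id : IsMonoCirc fun x => x := by
  refine ⟨Polynomial.X, fun _ => 0, fun k => ⟨1, fun n => ?_⟩, fun n =>
    ⟨(List.range n).map .inp, List.range n, by simp, by simp [Gate.fanin], fun x hx => ?_⟩⟩
  · cases k <;> simp
  have key : ∀ k, vals x ((List.range k).map .inp) =
      (List.range k).map fun i => if x.getD i false then (1 : ℝ) else 0 := fun k => by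
    induction k with
    | zero => rfl
    | succ k ih => simp [List.range_succ, vals_concat, ih, Gate.val]
  refine List.ext_getElem (by simp [hx]) fun i h1 h2 => ?_
  have h3 : i < n := hx ▸ h1
  cases e : x[i] <;> simp [key, List.getD_eq_getElem?_getD, h1, h3, e]

theorem uni_hard (L : List Bool → Bool) (hL : L ∈ NP) (hU : IsUp L) :
    ∃ f, IsPolyTime f ∧ IsMonoCirc f ∧ ∀ x, L x = Uni (f x) := by
  obtain ⟨Φ, M, h1, h2, h3, h4, h5⟩ := exists_formula hL
  let k : ℕ → ℕ := fun n => size (Φ n, n) + M n + n + 1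
  have h0 : PT fun x : List Bool => (Φ x.length, x.length) := h1.prodMk (by fun_prop)
  have k1 : PT fun x : List Bool => k x.length :=
    ((h0.size'.add h2).add (by fun_prop)).add (.const 1)
  have k2 : PB fun x : List Bool => k x.length :=
    (((PB.size' h0).add h3).add (by fun_prop)).add (.const 1)
  let c : ℕ → List Bool := fun n => pad (k n) (enc (Φ n, n))
  have c1 : PT fun x : List Bool => c x.length :=
    PT.append (PT.replicate (PT.sub (PT.sub k1 h0.enc'.length) (PT.const 1)) k2.sub.sub
      (PT.const true)) (PT.cons (PT.const _) h0.enc')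
  have c2 : ∀ n, (c n).length = k n := fun n => pad_length (by simp only [k, size]; omega)
  have c3 : ∀ n, tl (c n) = enc (Φ n, n) := fun n => tl_eq _ _
  let f : List Bool → List Bool := fun x => (List.range (3 * k x.length)).map fun p =>
    if p < 2 * k x.length then (c x.length).getD (p / 2) false == decide (p % 2 = 1)
    else x.getD (p - 2 * k x.length) false
  have f1 : PT f := by
    have a1 := k1.comp' (f := fun z : List Bool × ℕ => z.1) (by fun_prop)
    have a2 := c1.comp' (f := fun z : List Bool × ℕ => z.1) (by fun_prop)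
    exact PT.map (PT.ite (PP.lt (by fun_prop) ((PT.const 2).mul a1))
      (PT.beq (PT.listGetD a2 (by fun_prop) (PT.const _)) (by fun_prop))
      (PT.listGetD (by fun_prop) (PT.sub (by fun_prop) ((PT.const 2).mul a1)) (PT.const _)))
      (PT.range ((PT.const 3).mul k1) ((PB.const 3).mul k2))
  have k3 : Pb k := by
    obtain ⟨q, hq⟩ := k2
    refine ((Pb.eval q).comp ((Pb.const 3).mul Pb.id)).mono fun n => ?_
    simpa [size_listBool] using hq (List.replicate n true)
  have f2 : ∀ x, ∀ i < k x.length, ∀ b : Bool, (f x).getD (2 * i + b.toNat) false =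
      ((c x.length).getD i false == b) := fun x i hi b => by
    have := Bool.toNat_le b
    simp only [f, getD_map_range]
    rw [if_pos (by omega), decide_eq_true (by omega : 2 * i + b.toNat < 3 * k x.length)]
    cases b <;> simp [Nat.mul_add_div, -List.getD_eq_getElem?_getD]
  have f3 : ∀ x, ∀ i < k x.length, (f x).getD (2 * k x.length + i) false = x.getD i false :=
    fun x i hi => by
      simp only [f, getD_map_range]
      rw [if_neg (by omega), decide_eq_true (by omega), Nat.add_sub_cancel_left, Bool.true_and]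
  refine ⟨f, f1.isPolyTime, isMonoCirc_id.comp (N := fun n => 3 * k n) ((Pb.const 3).mul k3)
    (fun x => by simp) fun n p => ?_, fun x => Bool.eq_iff_iff.2 ⟨fun h => ?_, fun h => ?_⟩⟩
  · simp only [getD_map_range]
    by_cases a : p < 3 * k n
    · by_cases b : p < 2 * k n
      · exact Or.inl ⟨_, fun x hx => by rw [hx, if_pos b]⟩
      · exact Or.inr ⟨_, fun x hx => by rw [hx, if_neg b, decide_eq_true a, Bool.true_and]⟩
    · exact Or.inl ⟨false, fun x hx => by simp [hx, a]⟩
  · obtain ⟨s, s1, s2⟩ := (h5 x).2.1 h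
    have s3 : ∀ j < M x.length, ((List.range (k x.length)).map s).getD j false = s j :=
      fun j hj => by rw [getD_map_range, decide_eq_true (by simp only [k]; omega), Bool.true_and]
    refine uni_iff.2 ⟨(c x.length, Φ x.length, x, (List.range (k x.length)).map s),
      by simp [f, c2], c3 _, fun i hi => ?_, fun i hi a => ?_, ?_, by simp [c2], fun j hj => ?_,
      fun cl hcl => ?_⟩
    · rw [f2 x i (c2 _ ▸ hi)]
      simp
    · simp only at hi
      rw [c2, f3 x i (by simp only [k]; omega)]
      exact a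
    · simp only [c2, k]
      omega
    · exact (s3 j (hj.trans_le (h5 x).1)).trans (s1 j hj)
    · have a : ∀ v ∈ [cl.1.1, cl.2.1.1, cl.2.2.1], _ := fun v hv =>
        s3 v (h4 _ v (List.mem_flatMap.2 ⟨cl, hcl, hv⟩))
      unfold Clause3.Holds
      beta_reduce
      rw [a _ (by simp), a _ (by simp), a _ (by simp)]
      exact s2 cl hcl
  · obtain ⟨⟨c', φ, x', s⟩, a1, a2, a3, a4, -, -, a5, a6⟩ := uni_iff.1 h
    simp only at a1 a2 a3 a4 a5 a6
    have b1 : c'.length = k x.length := by
      simp [f] at a1
      omega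
    obtain rfl : c' = c x.length := List.ext_getElem (b1.trans (c2 _).symm) fun i i1 i2 => by
      have := a3 i i1
      rw [f2 x i (b1 ▸ i1), List.getD_eq_getElem _ _ i1, List.getD_eq_getElem _ _ i2] at this
      exact (beq_iff_eq.1 this).symm
    obtain ⟨rfl, b2⟩ := Prod.mk.inj (enc_injective ((c3 _).symm.trans a2))
    refine hU x' x (forall₂_of_getD b2.symm fun i hi a => ?_) ((h5 x').2.2 ⟨_, a5, b2 ▸ a6⟩)
    rw [← f3 x i (by simp only [k]; omega), ← b1]
    exact a4 i hi a

/-- Every language in NP reduces to the monotone language `Uni` one-one and invertibly. -/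
theorem uni_collapse (L : List Bool → Bool) (hL : L ∈ NP) :
    ∃ f g : List Bool → List Bool, IsPolyTime f ∧ IsPolyTime g ∧ (∀ x, g (f x) = x) ∧
      (∀ x, x.length < (f x).length) ∧ (∀ x, L x = Uni (f x)) ∧ (IsUp L → IsMonoCirc f) :=
  Pool.Agent.Results.MP_8a92de_lc.MonotoneCollapse.result NP np_closed np_nontrivial Uni uni_up
    uni_hard L hL

end Pool.Agent.MP_8a92de_lc.H12
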