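import Pool.Agent.MP_8a92de_lc.H12.Clq
import Pool.Agent.MP_8a92de_lc.Mg.H86U_Flex

/-! The monotone language that hides a given language behind a chain of clique gates. -/

namespace Pool.Agent.MP_8a92de_lc.H12

open Finset Pool.Agent.Lib.Cx H86

/-- The chain `H p0 and (H s0 or (H p1 and (H s1 or ... )))` ending in a double-rail copy of `P`. -/
def Lang (P : List Bool → Bool) (w : List Bool) : Prop :=
  ∃ (u : List Bool) (j : ℕ), w.length = nN u.length ∧ j ≤ u.length ∧
    (∀ i < u.length, i ≤ j → Clq u.length (blk u.length w (2 * i))) ∧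
    (j < u.length → Clq u.length (blk u.length w (2 * j + 1))) ∧
    (j = u.length → (∀ i < u.length,
      blk u.length w (2 * u.length) (2 * i + (u.getD i false).toNat) = true) ∧ P u = true)

theorem getD_of_forall₂ {x y : List Bool} (h : List.Forall₂ (· ≤ ·) x y) (i : ℕ) :
    x.getD i false = true → y.getD i false = true := by
  induction h generalizing i with
  | nil => exact id
  | cons h _ ih =>
    cases i with
    | zero => exact fun a => Bool.le_iff_imp.1 h a
    | succ i => exact ih i

theorem forall₂_of_getD {x y : List Bool} (hl : x.length = y.length)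
    (h : ∀ i < x.length, x.getD i false = true → y.getD i false = true) :
    List.Forall₂ (· ≤ ·) x y := by
  refine List.forall₂_iff_get.2 ⟨hl, fun i h1 h2 => Bool.le_iff_imp.2 ?_⟩
  simpa [List.getD_eq_getElem?_getD, h1, h2] using h i h1

open Classical in
theorem isUp_lang (P : List Bool → Bool) : IsUp fun w => decide (Lang P w) := by
  intro x y h
  simp only [decide_eq_true_eq]
  rintro ⟨u, j, h1, h2, h3, h4, h5⟩
  have h6 : ∀ m b e, blk m x b e = true → blk m y b e = true := fun m b e => getD_of_forall₂ h _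
  exact ⟨u, j, h.length_eq ▸ h1, h2, fun i a b => (h3 i a b).mono fun _ _ => h6 _ _ _,
    fun a => (h4 a).mono fun _ _ => h6 _ _ _, fun a => ⟨fun i b => h6 _ _ _ ((h5 a).1 i b), (h5 a).2⟩⟩

theorem nN_strictMono : StrictMono nN := strictMono_nat_of_lt_succ fun m => by
  have h1 : nV m < nV (m + 1) := by unfold nV; nlinarith
  have h2 : nW m < nW (m + 1) := Nat.mul_lt_mul'' h1 h1
  exact Nat.mul_lt_mul'' (by omega) h2

theorem npred_of {β : Type} [Enc β] [hd : Dec β] {A B : List Bool → Bool}
    (g : List Bool × β → List Bool) (hg : PT g) {a0 : List Bool} (h0 : B a0 = false)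
    (M : List Bool → ℕ) (hM : PB M) (sound : ∀ x b, B (g (x, b)) = true → A x = true)
    (complete : ∀ x, A x = true → ∃ b, size b ≤ M x ∧ B (g (x, b)) = true) : NPReducible A B := by
  obtain ⟨d, p, e⟩ := hd.dec
  obtain ⟨q, hq⟩ := hM
  have : PT fun z : List Bool × List Bool => (d z.2).elim a0 fun b => g (z.1, b) := by fun_prop
  refine ⟨q.comp (3 * Polynomial.X), _, this.isPolyTime, fun x => ⟨fun h => ?_, ?_⟩⟩
  · obtain ⟨b, h1, h2⟩ := complete x h
    refine ⟨enc b, (h1.trans (hq x)).trans_eq (by simp [size_listBool]), ?_⟩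
    simpa only [e, Option.elim] using h2
  · rintro ⟨w, -, h⟩
    revert h
    cases d w with
    | none => simp [h0]
    | some b => exact sound x b

section
variable {α : Type} [Enc α]

@[fun_prop] theorem pt_nV {m : α → ℕ} (h : PT m) : PT fun a => nV (m a) := by unfold nV; fun_prop

@[fun_prop] theorem pb_nV {m : α → ℕ} (h : PB m) : PB fun a => nV (m a) := by unfold nV; fun_prop

@[fun_prop] theorem pt_nW {m : α → ℕ} (h : PT m) : PT fun a => nW (m a) := by unfold nW; fun_prop

@[fun_prop] theorem pb_nW {m : α → ℕ} (h : PB m) : PB fun a => nW (m a) := by unfold nW; fun_prop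

@[fun_prop] theorem pt_nN {m : α → ℕ} (h : PT m) : PT fun a => nN (m a) := by unfold nN; fun_prop

@[fun_prop] theorem pb_nN {m : α → ℕ} (h : PB m) : PB fun a => nN (m a) := by unfold nN; fun_prop

@[fun_prop] theorem pt_blk {m b e : α → ℕ} {w : α → List Bool} (hm : PT m) (hw : PT w) (hb : PT b)
    (he : PT e) : PT fun a => blk (m a) (w a) (b a) (e a) := by unfold blk; fun_prop

end

/-- The list `h` is a clique in block `b`. -/
def Cl (m : ℕ) (w : List Bool) (b : ℕ) (h : List ℕ) : Prop :=
  (∀ i < m + 1, h.getD i 0 < m) ∧ ∀ i < m + 1, ∀ j < m + 1, i ≠ j →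
    blk m w b ((i * m + h.getD i 0) * nV m + (j * m + h.getD j 0)) = true

@[fun_prop] theorem pp_cl {α : Type} [Enc α] {u w : α → List Bool} {b : α → ℕ} {h : α → List ℕ}
    (hu : PT u) (hw : PT w) (hb : PT b) (hh : PT h) :
    PP fun a => Cl (u a).length (w a) (b a) (h a) := by unfold Cl; fun_prop

theorem exists_cl (m : ℕ) (w : List Bool) (b : ℕ) :
    ∃ h : List ℕ, size h ≤ (m + 1) * (2 * m + 1) ∧ (Clq m (blk m w b) → Cl m w b h) := by
  by_cases h : Clq m (blk m w b)
  · obtain ⟨h, h1, h2⟩ := h
    have h3 : ∀ i < m + 1, ((List.range (m + 1)).map h).getD i 0 = h i := fun i hi => by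
      simp [List.getD_eq_getElem?_getD, hi]
    refine ⟨(List.range (m + 1)).map h, ?_, fun _ => ⟨fun i hi => ?_, fun i hi j hj a => ?_⟩⟩
    · refine (size_list_le _ m fun a ha => (size_nat_le_self a).trans ?_).trans (by simp)
      obtain ⟨i, hi, rfl⟩ := List.mem_map.1 ha
      exact (h1 i (List.mem_range.1 hi)).le
    · rw [h3 i hi]
      exact h1 i hi
    · rw [h3 i hi, h3 j hj]
      exact h2 i hi j hj a
  · exact ⟨[], by simp, fun a => absurd a h⟩

open Classical in
theorem lang_npred {L : List Bool → Bool} {dec : List Bool → List Bool} (hd : PT dec)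
    {a0 a1 : List Bool} (h0 : L a0 = false) (h1 : L a1 = true) :
    NPReducible (fun w => decide (Lang (fun u => L (dec u)) w)) L := by
  let chk : List Bool × List Bool × ℕ × List (List ℕ) → Prop := fun z =>
    z.1.length = nN z.2.1.length ∧ z.2.2.1 ≤ z.2.1.length ∧
    (∀ i < z.2.1.length, i ≤ z.2.2.1 → Cl z.2.1.length z.1 (2 * i) (z.2.2.2.getD (2 * i) [])) ∧
    (z.2.2.1 < z.2.1.length →
      Cl z.2.1.length z.1 (2 * z.2.2.1 + 1) (z.2.2.2.getD (2 * z.2.2.1 + 1) [])) ∧
    (z.2.2.1 = z.2.1.length → ∀ i < z.2.1.length,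
      blk z.2.1.length z.1 (2 * z.2.1.length) (2 * i + (z.2.1.getD i false).toNat) = true)
  have hc : PP chk := by simp only [chk]; fun_prop
  refine npred_of (fun z => if chk z then if z.2.2.1 < z.2.1.length then a1 else dec z.2.1 else a0)
    (by fun_prop) h0 (fun w => 2 * (3 * w.length) + 1 + (2 * w.length + 1 +
      2 * w.length * (2 * ((w.length + 1) * (2 * w.length + 1)) + 1))) (by fun_prop) ?_ ?_
  · rintro w ⟨u, j, hs⟩ h
    by_cases e : chk (w, u, j, hs)
    · rw [if_pos e] at h
      obtain ⟨b1, b2, b3, b4, b5⟩ := e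
      refine decide_eq_true ⟨u, j, b1, b2, fun i a b => ⟨_, b3 i a b⟩, fun a => ⟨_, b4 a⟩,
        fun a => ⟨b5 a, ?_⟩⟩
      rwa [if_neg a.not_lt] at h
    · rw [if_neg e, h0] at h
      exact absurd h (by simp)
  · intro w h
    obtain ⟨u, j, b1, b2, b3, b4, b5⟩ := of_decide_eq_true h
    choose g g1 g2 using exists_cl u.length w
    have h3 : ∀ b < 2 * u.length, ((List.range (2 * u.length)).map g).getD b [] = g b :=
      fun b hb => by simp [List.getD_eq_getElem?_getD, hb]
    have h4 : u.length ≤ w.length := b1 ▸ nN_strictMono.le_apply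
    refine ⟨(u, j, (List.range (2 * u.length)).map g), ?_, ?_⟩
    · have h5 := size_list_le ((List.range (2 * u.length)).map g) ((u.length + 1) *
        (2 * u.length + 1)) fun a ha => by
          obtain ⟨b, -, rfl⟩ := List.mem_map.1 ha
          exact g1 b
      have h6 := size_nat_le_self j
      rw [List.length_map, List.length_range] at h5
      rw [size_prod, size_prod, size_listBool]
      have h7 : 2 * u.length * (2 * ((u.length + 1) * (2 * u.length + 1)) + 1) ≤
        2 * w.length * (2 * ((w.length + 1) * (2 * w.length + 1)) + 1) := by gcongr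
      simp only
      omega
    · have e : chk (w, u, j, (List.range (2 * u.length)).map g) :=
        ⟨b1, b2, fun i a b => by
          simp only at a ⊢
          rw [h3 _ (by omega)]
          exact g2 _ (b3 i a b), fun a => by
          simp only at a ⊢
          rw [h3 _ (by omega)]
          exact g2 _ (b4 a), fun a => (b5 a).1⟩
      rw [if_pos e]
      split_ifs with a
      · exact h1
      · exact (b5 (le_antisymm b2 (not_lt.1 a))).2

end Pool.Agent.MP_8a92de_lc.H12
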