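import Pool.Agent.MP_8a92de_lc.H12.Words

/-! The search runs in polynomial time; the invertible reduction. -/

namespace Pool.Agent.MP_8a92de_lc.H12

open Finset Pool.Agent.Lib.Cx H86

section
variable {α : Type} [Enc α]

theorem pt_word {m : α → ℕ} (hm : PT m) (hb : PB m) {β : α → ℕ → ℕ → Bool}
    (hβ : PT fun z : α × ℕ × ℕ => β z.1 z.2.1 z.2.2) : PT fun a => word (m a) (β a) := by
  have h1 := pt_nW (hm.comp' (f := fun z : α × ℕ => z.1) (by fun_prop))
  exact PT.map (hβ.comp' (f := fun z : α × ℕ => (z.1, z.2 / nW (m z.1), z.2 % nW (m z.1)))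
    (by fun_prop)) (PT.range (pt_nN hm) (pb_nN hb))

variable {m : α → List Unit} {us : α → List (List Bool)} {j : α → ℕ} {s : α → List Bool}

@[fun_prop] theorem pt_LoW (hm : PT m) (hu : PT us) (hj : PT j) (hs : PT s) :
    PT fun a => LoW (m a).length (us a) (j a) (s a) := by
  unfold LoW hole
  exact pt_word (by fun_prop) (by fun_prop) (by fun_prop)

@[fun_prop] theorem pt_HiW (hm : PT m) (hu : PT us) (hj : PT j) (hs : PT s) :
    PT fun a => HiW (m a).length (us a) (j a) (s a) := by
  unfold HiW hole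
  exact pt_word (by fun_prop) (by fun_prop) (by fun_prop)

@[fun_prop] theorem pt_RW (τ : Bool) (hu : PT us) (hs : PT s) :
    PT fun a => RW (s a).length (us a) τ (s a) :=
  pt_word (by fun_prop) (by fun_prop) (by fun_prop)

@[fun_prop] theorem pt_gl (D : ℕ) {k Q v : α → ℕ} {R : α → List ℕ} (hk : PT k) (hQ : PT Q)
    (hR : PT R) (hv : PT v) : PT fun a => gl D (k a) (Q a) (R a) (v a) :=
  ((PT.mapConst (List.range D) (f := fun i a => (R a).getD i 0 * v a ^ i)
    fun _ _ => by fun_prop).sum.mod hQ).mod hk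

@[fun_prop] theorem pt_cand (D : ℕ) (hm : PT m) : PT fun a => cand D (m a).length :=
  PT.product (by fun_prop) (pt_tup D (by fun_prop) (by fun_prop))

@[fun_prop] theorem pt_yw (D : ℕ) {Q : α → ℕ} {R : α → List ℕ} (hm : PT m) (hQ : PT Q)
    (hR : PT R) : PT fun a => yw (m a).length (gl D (m a).length (Q a) (R a)) := by
  unfold yw YA
  fun_prop

@[fun_prop] theorem pt_zw (D : ℕ) {Q : α → ℕ} {R : α → List ℕ} (hm : PT m) (hQ : PT Q)
    (hR : PT R) : PT fun a => zw (m a).length (gl D (m a).length (Q a) (R a)) := by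
  unfold zw ZA
  fun_prop

end

/-- Output position `a` reads off bit `i`. -/
def Sep (f : List Bool → List Bool) (m : ℕ) (us : List (List Bool)) (i a : ℕ) : Prop :=
  (f (LoW m us i (us.getD (2 * i + 1) []))).getD a false = true ∧
    (f (HiW m us i (us.getD (2 * i) []))).getD a false = false

/-- The tests stored for bit `i` work. -/
def Good (f : List Bool → List Bool) (m : ℕ) (us : List (List Bool)) (i : ℕ) : Prop :=
  (Clq m (mk us (2 * i)) ∧ ¬Clq m (mk us (2 * i + 1))) ∧ ∃ a, Sep f m us i a

theorem Good.append {f : List Bool → List Bool} {m i : ℕ} {us : List (List Bool)}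
    (h : Good f m us i) (hi : 2 * i + 1 < us.length) (vs : List (List Bool)) :
    Good f m (us ++ vs) i := by
  unfold Good Sep H86.mk at *
  rwa [lo_append (by omega), hi_append (by omega), List.getD_append _ _ _ _ hi,
    List.getD_append _ _ _ _ (by omega)]

theorem pb_nN' : Pb nN := by
  change Pb fun m => nN m
  unfold nN nW nV
  fun_prop

theorem exists_table {P B : List Bool → Bool} (hB : IsUp B) {f : List Bool → List Bool}
    (hf : ∀ w, Lang P w ↔ B (f w) = true) (h1 : PT f) (h2 : IsMonoCirc f) :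
    ∃ (m0 : ℕ) (U : List Unit → List (List Bool)), PT U ∧
      ∀ m : List Unit, m0 ≤ m.length → ∀ i < m.length, Good f m.length (U m) i := by
  classical
  obtain ⟨q, d, hd, hq⟩ := h2
  obtain ⟨c, hc⟩ : Pb fun m => q.eval (nN m) * (nN m + 1) :=
    ((Pb.eval q).comp pb_nN').mul (pb_nN'.add (.const 1))
  let s := (2 * (c + 1)) ^ 2
  let D := 2 * (c + 1)
  obtain ⟨K, hK⟩ := hd (s + 1)
  let m0 := 4 * (2 ^ c * ((K + 1) * s ^ (s + 1)) * 2 ^ (c + 1)) + 4 * (s * 2) + 2
  let R : (List Unit × ℕ × List (List Bool)) × (ℕ × List ℕ) × ℕ × List ℕ → Prop := fun z =>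
    ∃ a < (f (LoW z.1.1.length z.1.2.2 z.1.2.1
        (zw z.1.1.length (gl D z.1.1.length z.2.2.1 z.2.2.2)))).length,
      (f (LoW z.1.1.length z.1.2.2 z.1.2.1
        (zw z.1.1.length (gl D z.1.1.length z.2.2.1 z.2.2.2)))).getD a false = true ∧
      (f (HiW z.1.1.length z.1.2.2 z.1.2.1
        (yw z.1.1.length (gl D z.1.1.length z.2.1.1 z.2.1.2)))).getD a false = false
  have hR : PP R := by simp only [R]; fun_prop
  obtain ⟨g, g1, g2⟩ := pick (l := fun z : List Unit × ℕ × List (List Bool) =>
    (cand D z.1.length).product (cand D z.1.length)) (by fun_prop) (R := fun a b => R (a, b)) hR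
    ((0, []), 0, [])
  suffices step : ∀ z : List Unit × ℕ × List (List Bool), m0 ≤ z.1.length → z.2.1 < z.1.length →
      (z.2.2.length = 2 * z.2.1 ∧ (∀ u ∈ z.2.2, u.length ≤ nW z.1.length) ∧
        ∀ i < z.2.1, Good f z.1.length z.2.2 i) → ∀ vs, vs = z.2.2 ++
        [yw z.1.length (gl D z.1.length (g z).1.1 (g z).1.2),
          zw z.1.length (gl D z.1.length (g z).2.1 (g z).2.2)] →
      vs.length = 2 * (z.2.1 + 1) ∧ (∀ u ∈ vs, u.length ≤ nW z.1.length) ∧
        ∀ i < z.2.1 + 1, Good f z.1.length vs i by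
    obtain ⟨U, u1, u2⟩ := PS.loop (T := fun m : List Unit => m.length)
      (M := fun m => 2 * m.length * (6 * nW m.length + 1)) (c := fun _ => ([] : List (List Bool)))
      (by fun_prop) (by fun_prop) (by fun_prop) (PT.const _) (fun m => m0 ≤ m.length)
      (fun m j us => us.length = 2 * j ∧ (∀ u ∈ us, u.length ≤ nW m.length) ∧
        ∀ i < j, Good f m.length us i) (fun _ _ => by simp)
      ⟨fun z => z.2.2 ++ [yw z.1.length (gl D z.1.length (g z).1.1 (g z).1.2),
        zw z.1.length (gl D z.1.length (g z).2.1 (g z).2.2)], by fun_prop,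
        fun z a b c => step z a b c _ rfl⟩
      fun m i us _ hi h => size_lists (by omega) h.2.1
    exact ⟨m0, U, u1, fun m hm => (u2 m hm).2.2⟩
  rintro ⟨m, j, us⟩ hm hj ⟨a1, a2, a3⟩ _ rfl
  simp only at hm hj a1 a2 a3 ⊢
  obtain ⟨cc, out, b1, b0, b2⟩ := hq (nN m.length)
  have b3 : q.eval (nN m.length) * (nN m.length + 1) ≤ 2 ^ c * m.length ^ c := by
    rw [← mul_pow]
    exact (hc _).trans (Nat.pow_le_pow_left (by omega) _)
  have b8 : max (d (nN m.length)) 1 ^ (s + 1) ≤ (K + 1) * (nN m.length + 1) := by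
    rcases le_total (d (nN m.length)) 1 with e | e
    · rw [max_eq_right e, one_pow]
      exact Nat.mul_pos (by omega) (by omega)
    · rw [max_eq_left e]
      exact (hK _).trans (by gcongr; omega)
  have b4 : 4 * (cc.length * (max (d (nN m.length)) 1 * s) ^ (s + 1) * 2 ^ (c + 1)) ≤
      m.length ^ (c + 1) :=
    calc _ ≤ 4 * (q.eval (nN m.length) * ((K + 1) * (nN m.length + 1) * s ^ (s + 1)) *
          2 ^ (c + 1)) := by rw [mul_pow]; gcongr
      _ = 4 * (q.eval (nN m.length) * (nN m.length + 1) * ((K + 1) * s ^ (s + 1)) *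
          2 ^ (c + 1)) := by ring
      _ ≤ 4 * (2 ^ c * m.length ^ c * ((K + 1) * s ^ (s + 1)) * 2 ^ (c + 1)) := by gcongr
      _ = m.length ^ c * (4 * (2 ^ c * ((K + 1) * s ^ (s + 1)) * 2 ^ (c + 1))) := by ring
      _ ≤ m.length ^ c * m.length := Nat.mul_le_mul_left _ (by omega)
      _ = _ := by ring
  obtain ⟨y, y1, z, z1, a, b5, b6⟩ := exists_pair (us := us) hB hf (ρ := c + 1) (by omega)
    (le_max_right _ 1) (fun g hg => (b0 g hg).trans (le_max_left _ _)) b2 b4
    (by omega) hj fun i hi => (a3 i hi).1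
  obtain ⟨a, -, b7⟩ := g2 (m, j, us) ⟨(y, z), List.pair_mem_product.2 ⟨y1, z1⟩, a, by
    rw [b2 _ (by rw [LoW, hole, length_word])]
    simpa using b5, b6⟩
  have hg : ∀ Q R v, gl D m.length Q R v < m.length := fun _ _ _ => Nat.mod_lt _ (by omega)
  refine ⟨by simp [a1, mul_add], fun u hu => ?_, fun i hi => ?_⟩
  · simp only [List.mem_append, List.mem_cons, List.not_mem_nil, or_false] at hu
    rcases hu with hu | rfl | rfl
    exacts [a2 u hu, by simp [yw], by simp [zw]]
  · rcases (Nat.lt_succ_iff.1 hi).eq_or_lt with rfl | hi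
    · unfold Good Sep H86.mk
      rw [lo_append (by omega), hi_append (by omega), List.getD_append_right _ _ _ _ (by omega),
        List.getD_append_right _ _ _ _ (by omega), a1, Nat.sub_self, Nat.add_sub_cancel_left]
      exact ⟨⟨clq_yw (hg _ _), not_clq_zw (hg _ _)⟩, a, b7⟩
    · exact (a3 i hi).append (by omega) _

theorem IsMonoCirc.mono {f : List Bool → List Bool} (h : IsMonoCirc f) {x y : List Bool}
    (hl : x.length = y.length) : (f x).length = (f y).length ∧
      ((∀ i, x.getD i false = true → y.getD i false = true) →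
        ∀ a, (f x).getD a false = true → (f y).getD a false = true) := by
  obtain ⟨q, d, -, hq⟩ := h
  obtain ⟨c, out, -, -, h⟩ := hq y.length
  rw [h x hl, h y rfl]
  refine ⟨by simp, fun e a => ?_⟩
  by_cases ha : a < out.length
  · rw [out_getD _ _ _ ha, out_getD _ _ _ ha, decide_eq_true_eq, decide_eq_true_eq]
    exact fun b => b.trans (vals_mono e c _)
  · rw [List.getD_eq_default _ _ (by simpa using ha)]
    simp

/-- Every bit of `w x` is, for each input length, a constant or an input bit. -/
def Prj (w : List Bool → ℕ → Bool) : Prop :=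
  ∀ n p, (∃ b, ∀ x : List Bool, x.length = n → w x p = b) ∨
    ∃ i, ∀ x : List Bool, x.length = n → w x p = x.getD i false

theorem IsMonoCirc.comp {f w : List Bool → List Bool} (h : IsMonoCirc f) {N : ℕ → ℕ} (hN : Pb N)
    (hl : ∀ x, (w x).length = N x.length) (hw : Prj fun x p => (w x).getD p false) :
    IsMonoCirc fun x => f (w x) := by
  obtain ⟨q, d, hd, hq⟩ := h
  obtain ⟨q', hq'⟩ := ((Pb.eval q).comp hN).poly
  obtain ⟨a, ha⟩ := hN.add (.const 1)
  refine ⟨q', fun n => d (N n), fun k => ?_, fun n => ?_⟩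
  · obtain ⟨K, hK⟩ := hd (k * (a + 1))
    refine ⟨K * 2, fun n => (Nat.pow_le_pow_iff_left (n := a + 1) (by omega)).1 ?_⟩
    rw [← pow_mul, mul_assoc, mul_pow]
    refine (hK _).trans (Nat.mul_le_mul (Nat.le_self_pow (by omega) _) ((ha n).trans ?_))
    exact (Nat.pow_le_pow_left (by omega) _).trans (Nat.pow_le_pow_right (by omega) (by omega))
  · obtain ⟨c, out, h1, h2, h3⟩ := hq (N n)
    have key : ∀ g : Gate, ∃ g' : Gate, g'.fanin ≤ g.fanin ∧
        ∀ x : List Bool, x.length = n → ∀ v, g'.val x v = g.val (w x) v := by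
      rintro (p | ⟨k, φ, a⟩)
      · rcases hw n p with ⟨b, hb⟩ | ⟨i, hi⟩
        · exact ⟨.op 0 (OrderHom.const _ (if b then 1 else 0)) Fin.elim0, le_rfl,
            fun x hx v => by simp only [Gate.val, ← hb x hx]; rfl⟩
        · exact ⟨.inp i, le_rfl, fun x hx v => by simp only [Gate.val, ← hi x hx]⟩
      · exact ⟨_, le_rfl, fun _ _ _ => rfl⟩
    choose σ k1 k2 using key
    have h4 : ∀ x : List Bool, x.length = n → ∀ c : List Gate,
        vals x (c.map σ) = vals (w x) c := fun x hx c => by
      induction c using List.reverseRecOn with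
      | nil => rfl
      | append_singleton c g ih =>
        rw [List.map_append, List.map_singleton, vals_concat, vals_concat, ih, k2 g x hx]
    refine ⟨c.map σ, out, by simpa using h1.trans (hq' n), fun g hg => ?_, fun x hx => ?_⟩
    · obtain ⟨g', hg', rfl⟩ := List.mem_map.1 hg
      exact (k1 g').trans (h2 g' hg')
    · rw [h4 x hx]
      exact h3 _ (hx ▸ hl x)

/-- The gluing lemma of the uniform construction, with the shape of the reduction kept. -/
theorem exists_niceP' {A B : List Bool → Bool} {H : List Bool → List Bool}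
    {I : List Unit → List Bool → List Bool} {ℓ : ℕ → ℕ} {m0 c : ℕ} (hH : PT H)
    (hI : PT fun z : List Unit × List Bool => I z.1 z.2)
    (h : ∀ u : List Bool, m0 ≤ u.length → (H u).length = ℓ u.length ∧ u.length ≤ ℓ u.length ∧
      ℓ u.length ≤ (u.length + 2) ^ c ∧ I (List.replicate u.length ()) (H u) = u ∧
      A (tl u) = B (H u)) : ∃ lv : ℕ → ℕ, Pb lv ∧ (∀ n, n < lv n) ∧
      NiceP (fun x => H (pad (lv x.length) x)) ∧ ∀ x, A x = B (H (pad (lv x.length) x)) := by
  obtain ⟨lv, l1, l2, l3, l4, l5⟩ := lev_exists c m0 (ℓ := ℓ) fun m hm => by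
    have := h (List.replicate m true) (by simpa using hm)
    rw [List.length_replicate] at this
    exact ⟨this.2.1, this.2.2.1⟩
  obtain ⟨f, hf⟩ : ∃ f : List Bool → List Bool, f = fun x => H (pad (lv x.length) x) := ⟨_, rfl⟩
  have f0 : PT f := by
    refine (hH.comp' (f := fun x : List Bool => pad (lv x.length) x) ?_).of_eq fun x => by rw [hf]
    exact PT.append (PT.replicate (PT.sub (PT.sub l1 (by fun_prop)) (PT.const 1)) l2.sub.sub
      (PT.const true)) (by fun_prop)
  have key : ∀ x : List Bool, (f x).length = ℓ (lv x.length) ∧ lv x.length ≤ ℓ (lv x.length) ∧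
      tl (I (List.replicate (lv x.length) ()) (f x)) = x ∧ A x = B (f x) := fun x => by
    have h1 := pad_length (l3 x.length)
    obtain ⟨h2, h3, -, h4, h5⟩ := h (pad (lv x.length) x) (h1.symm ▸ l4 _)
    have h6 : tl (pad (lv x.length) x) = x := tl_eq _ _
    rw [h1] at h2 h3 h4
    rw [h6] at h5
    rw [hf]
    exact ⟨h2, h3, (congrArg tl h4).trans h6, h5⟩
  have inj : Function.Injective f := fun x y e => by
    have h1 := l5 _ _ ((key x).1.symm.trans ((congrArg List.length e).trans (key y).1))
    rw [← (key x).2.2.1, e, h1, (key y).2.2.1]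
  have l6 : Pb lv := by
    obtain ⟨q, hq⟩ := l2
    refine ((Pb.eval q).comp ((Pb.const 3).mul Pb.id)).mono fun n => ?_
    simpa [size_listBool] using hq (List.replicate n true)
  refine ⟨lv, l6, l3, hf ▸ ⟨f0, fun x => (l3 _).trans_le ((key x).2.1.trans_eq (key x).1.symm),
    fun y => (((List.range (y.length + 1)).map fun m =>
      tl (I (List.replicate (min m y.length) ()) y)).find? fun x => decide (f x = y)).getD [],
      ?_, fun x => ?_⟩, fun x => by simpa only [hf] using (key x).2.2.2⟩
  · have h1 : PT fun z : List Bool × ℕ => I (List.replicate (min z.2 z.1.length) ()) z.1 :=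
      hI.comp' (f := fun z : List Bool × ℕ => (List.replicate (min z.2 z.1.length) (), z.1))
        (by fun_prop)
    refine PT.getD (PT.find? (f := fun y x => decide (f x = y)) (by fun_prop)
      (PT.map (f := fun (y : List Bool) m => tl (I (List.replicate (min m y.length) ()) y))
        (tl_pt h1) (by fun_prop))) (PT.const _)
  · have h1 : lv x.length ≤ (f x).length := (key x).2.1.trans_eq (key x).1.symm
    beta_reduce
    cases e : List.find? _ _ with
    | none =>
      refine absurd (decide_eq_true rfl) (List.find?_eq_none.1 e x (List.mem_map.2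
        ⟨lv x.length, List.mem_range.2 (by omega), ?_⟩))
      rw [min_eq_left h1, (key x).2.2.1]
    | some y =>
      have h2 := List.find?_some e
      exact inj (of_decide_eq_true h2)

theorem prj_rw (lv : ℕ → ℕ) (U : ℕ → List (List Bool)) :
    Prj fun x p => (RW (lv x.length) (U (lv x.length)) true (pad (lv x.length) x)).getD p false := by
  intro n p
  have h1 : ∀ i ≤ lv n - n - 1, ∃ b, ∀ x : List Bool, x.length = n →
      (pad (lv n) x).getD i false = b := fun i hi =>
    ⟨(List.replicate (lv n - n - 1) true ++ [false]).getD i false, fun x hx => by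
      rw [pad, hx, List.append_cons, List.getD_append _ _ _ _ (by simp; omega)]⟩
  have h2 : ∀ i, (∃ b, ∀ x : List Bool, x.length = n → (pad (lv n) x).getD i false = b) ∨
      ∃ k, ∀ x : List Bool, x.length = n → (pad (lv n) x).getD i false = x.getD k false :=
    fun i => (le_or_gt i (lv n - n - 1)).imp (h1 i) fun hi => ⟨i - (lv n - n - 1 + 1), fun x hx => by
      rw [pad, hx, List.append_cons, List.getD_append_right _ _ _ _ (by simp; omega)]
      simp⟩
  have h3 : ∀ x : List Bool, x.length = n → pn (pad (lv n) x) = lv n - n - 1 := fun x hx => by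
    rw [pad, pn_eq, hx]
  suffices (∃ b, ∀ x : List Bool, x.length = n →
      (RW (lv n) (U (lv n)) true (pad (lv n) x)).getD p false = b) ∨
      ∃ i, ∀ x : List Bool, x.length = n →
        (RW (lv n) (U (lv n)) true (pad (lv n) x)).getD p false = x.getD i false from
    this.imp (fun ⟨b, h⟩ => ⟨b, fun x hx => by simpa only [hx] using h x hx⟩)
      fun ⟨b, h⟩ => ⟨b, fun x hx => by simpa only [hx] using h x hx⟩
  simp only [RW, word, getD_map_range]
  generalize p / nW (lv n) = b
  generalize p % nW (lv n) = e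
  by_cases a1 : p < nN (lv n)
  · simp only [a1, decide_true, Bool.true_and]
    split_ifs
    · cases mk (U (lv n)) b e
      · by_cases a2 : b % 2 = 0
        · simpa only [a2, decide_true, Bool.true_and, Bool.or_false] using h2 (b / 2)
        · exact Or.inl ⟨false, by simp [a2]⟩
      · exact Or.inl ⟨true, by simp⟩
    · rcases Nat.mod_two_eq_zero_or_one e with a2 | a2
      · rcases le_or_gt (e / 2) (lv n - n - 1) with a3 | a3
        · obtain ⟨c, hc⟩ := h1 _ a3
          exact Or.inl ⟨_, fun x hx => by rw [hc x hx, h3 x hx]⟩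
        · exact Or.inl ⟨true, fun x hx => by simp [a2, h3 x hx, a3]⟩
      · simpa [a2, -List.getD_eq_getElem?_getD] using h2 (e / 2)
  · exact Or.inl ⟨false, by simp [a1]⟩

theorem niceP_of_lang {L P B : List Bool → Bool} (hB : IsUp B) {f : List Bool → List Bool}
    (hP : ∀ u, L (tl u) = P u) (hf : ∀ w, Lang P w ↔ B (f w) = true) (h1 : PT f)
    (h2 : IsMonoCirc f) : ∃ h, NiceP h ∧ (∀ x, L x = B (h x)) ∧ (IsUp L → IsMonoCirc h) := by
  classical
  obtain ⟨τ, hτ⟩ : ∃ τ : Bool, τ = true ↔ IsUp L := ⟨decide _, decide_eq_true_iff⟩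
  obtain ⟨m0, U, u1, u2⟩ := exists_table hB hf h1 h2
  let ℓ : ℕ → ℕ := fun m => (f (List.replicate (nN m) false)).length
  have hℓ : ∀ {m} β, (f (word m β)).length = ℓ m := fun β =>
    (h2.mono (by simp [length_word])).1
  have hℓ1 : PT fun m : List Unit => f (List.replicate (nN m.length) false) := by fun_prop
  obtain ⟨q, hq⟩ := PB.length hℓ1
  obtain ⟨c, hc⟩ := Pb.eval q
  let pos : List Unit → ℕ → ℕ := fun m i =>
    ((List.range (ℓ m.length)).find? fun a => decide (Sep f m.length (U m) i a)).getD 0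
  have p1 : PT fun z : List Unit × ℕ => pos z.1 z.2 := by
    simp only [pos, ℓ, Sep]
    fun_prop
  have p2 : ∀ m : List Unit, m0 ≤ m.length → ∀ i < m.length,
      Sep f m.length (U m) i (pos m i) := fun m hm i hi => by
    obtain ⟨a, ha⟩ := (u2 m hm i hi).2
    have h3 : a < ℓ m.length := by_contra fun e => by
      have := ha.1
      rw [LoW, hole, List.getD_eq_default _ _ (by rw [hℓ]; omega)] at this
      exact absurd this (by simp)
    simp only [pos]
    cases e : List.find? _ _ with
    | none => exact absurd (decide_eq_true ha) (List.find?_eq_none.1 e a (List.mem_range.2 h3))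
    | some b => simpa using List.find?_some e
  have key : ∀ u : List Bool, m0 ≤ u.length → ((List.range u.length).map fun i =>
      (f (RW u.length (U (List.replicate u.length ())) τ u)).getD
        (pos (List.replicate u.length ()) i) false) = u := fun u hu => by
    refine List.ext_getElem (by simp) fun i _ hi => ?_
    have a := p2 (List.replicate u.length ()) (by simpa) i (by simpa)
    rw [List.length_replicate] at a
    rw [List.getElem_map, List.getElem_range, ← List.getD_eq_getElem _ false hi]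
    cases e : u.getD i false
    · by_contra b
      have := (h2.mono (by rw [RW, HiW, hole, length_word, length_word])).2 
        (le_hi (us := U (List.replicate u.length ())) hi e) _ (Bool.eq_true_of_not_eq_false b)
      rw [a.2] at this
      exact absurd this (by simp)
    · exact (h2.mono (by rw [RW, LoW, hole, length_word, length_word])).2 (lo_le hi e) _ a.1
  suffices ∀ u : List Bool, m0 + 1 ≤ u.length → u.length ≤ ℓ u.length ∧
      ℓ u.length ≤ (u.length + 2) ^ c ∧
      L (tl u) = B (f (RW u.length (U (List.replicate u.length ())) τ u)) by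
    obtain ⟨lv, l1, l2, l3, l4⟩ := exists_niceP' (A := L) (B := B)
      (H := fun u => f (RW u.length (U (List.replicate u.length ())) τ u))
      (I := fun m y => (List.range m.length).map fun i => y.getD (pos m i) false) (ℓ := ℓ)
      (m0 := m0 + 1) (c := c) (by fun_prop) (by fun_prop) fun u hu => ⟨hℓ _, (this u hu).1,
        (this u hu).2.1, by simpa using key u (by omega), (this u hu).2.2⟩
    refine ⟨_, l3, l4, fun a => ?_⟩
    simp only [pad_length (l2 _), hτ.2 a]
    exact h2.comp (pb_nN'.comp l1) (fun x => by rw [RW, length_word])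
      (prj_rw lv fun m => U (List.replicate m ()))
  refine fun u hu => ⟨?_, ?_, ?_⟩
  · refine le_of_inj (H := fun v => f (RW u.length (U (List.replicate u.length ())) τ v))
      (fun v => hℓ _) fun v w hv hw e => ?_
    have e1 := key v (by omega)
    have e2 := key w (by omega)
    rw [hv] at e1
    rw [hw, ← e] at e2
    exact e1.symm.trans e2
  · simpa [size_listUnit] using (hq (List.replicate u.length ())).trans (hc _)
  · have a := u2 (List.replicate u.length ()) (by simp; omega)
    rw [List.length_replicate] at a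
    rw [hP, Bool.eq_iff_iff, ← hf, lang_rw (by omega) (fun i hi => (a i hi).1) hP hτ.1 rfl]

theorem collapse (C : Set (List Bool → Bool)) (hC : ∀ A B, NPReducible A B → B ∈ C → A ∈ C)
    (hne : ∃ L ∈ C, ∃ x y, L x ≠ L y) (B : List Bool → Bool) (hB : IsUp B)
    (hB' : ∀ L ∈ C, IsUp L → ∃ f, N68a2faeb.IsPolyTime f ∧ IsMonoCirc f ∧ ∀ x, L x = B (f x))
    (L : List Bool → Bool) (hL : L ∈ C) :
    ∃ h, NiceP h ∧ (∀ x, L x = B (h x)) ∧ (IsUp L → IsMonoCirc h) := by
  classical
  have key : ∀ L0 ∈ C, ∀ x y, L0 x ≠ L0 y → ∀ dec, PT dec → (∀ u, L (tl u) = L0 (dec u)) →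
      ∃ h, NiceP h ∧ (∀ x, L x = B (h x)) ∧ (IsUp L → IsMonoCirc h) := by
    intro L0 h0 x y hxy dec hd e
    obtain ⟨a0, a1, b0, b1⟩ : ∃ a0 a1, L0 a0 = false ∧ L0 a1 = true := by
      cases a : L0 x
      · exact ⟨x, y, a, by simpa [a] using hxy⟩
      · exact ⟨y, x, by simpa [a] using hxy, a⟩
    obtain ⟨f, f1, f2, f3⟩ := hB' _ (hC _ _ (lang_npred hd b0 b1) h0) (isUp_lang _)
    exact niceP_of_lang hB e (fun w => by rw [← f3, decide_eq_true_eq]) (.of_isPolyTime f1) f2
  by_cases h : ∃ x y, L x ≠ L y
  · obtain ⟨x, y, h⟩ := h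
    exact key L hL x y h tl (by fun_prop) fun _ => rfl
  · push Not at h
    obtain ⟨L0, h0, x, y, hxy⟩ := hne
    by_cases e : L [] = L0 x
    · exact key L0 h0 x y hxy (fun _ => x) (PT.const _) fun u => (h _ _).trans e
    · refine key L0 h0 x y hxy (fun _ => y) (PT.const _) fun u => (h _ []).trans ?_
      revert e hxy
      cases L [] <;> cases L0 x <;> cases L0 y <;> simp

end Pool.Agent.MP_8a92de_lc.H12
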