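import Pool.Agent.MP_8a92de_lc.H12.Lang

/-! The words used by the reduction, and the search for a pair of tests fixing one output bit. -/

namespace Pool.Agent.MP_8a92de_lc.H12

open Finset Pool.Agent.Lib.Cx H86

/-- Lower bound for all words whose `j`-th bit is set. -/
def LoW (m : ℕ) (us : List (List Bool)) (j : ℕ) (s : List Bool) : List Bool :=
  hole m (2 * j + 1) (fun b e => decide (b = 2 * j) || (decide (b < 2 * j) && mk us b e)) s

/-- Upper bound for all words whose `j`-th bit is not set. -/
def HiW (m : ℕ) (us : List (List Bool)) (j : ℕ) (s : List Bool) : List Bool :=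
  hole m (2 * j) (fun b e => decide (2 * j < b) || decide (b % 2 = 0) || mk us b e) s

/-- The word that encodes `u`; with `τ` set, the bits after the header are single-rail. -/
def RW (m : ℕ) (us : List (List Bool)) (τ : Bool) (u : List Bool) : List Bool :=
  word m fun b e => if b < 2 * m then (decide (b % 2 = 0) && u.getD (b / 2) false) || mk us b e
    else u.getD (e / 2) false == decide (e % 2 = 1) ||
      (decide (e % 2 = 0) && (τ && decide (pn u < e / 2)))

theorem lang_iff {P : List Bool → Bool} {m : ℕ} {β : ℕ → ℕ → Bool} (hm : 0 < m) :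
    Lang P (word m β) ↔ ∃ (u : List Bool) (j : ℕ), u.length = m ∧ j ≤ m ∧
      (∀ i < m, i ≤ j → Clq m (β (2 * i))) ∧ (j < m → Clq m (β (2 * j + 1))) ∧
      (j = m → (∀ i < m, β (2 * m) (2 * i + (u.getD i false).toNat) = true) ∧ P u = true) := by
  have h1 : ∀ b < 2 * m + 1, Clq m (blk m (word m β) b) ↔ Clq m (β b) := fun b hb =>
    ⟨fun h => h.mono fun e he a => by rwa [blk_word β hb he] at a,
      fun h => h.mono fun e he a => by rwa [blk_word β hb he]⟩
  have h2 : ∀ i < m, ∀ c : Bool, blk m (word m β) (2 * m) (2 * i + c.toNat) =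
      β (2 * m) (2 * i + c.toNat) := fun i hi c => blk_word β (by omega) (by
    have := Bool.toNat_le c
    have : 2 * m ≤ nV m := by unfold nV; nlinarith
    have : nV m ≤ nW m := Nat.le_mul_self _
    omega)
  refine exists_congr fun u => exists_congr fun j => ⟨?_, ?_⟩
  · rintro ⟨a1, a2, a3, a4, a5⟩
    rw [length_word] at a1
    obtain rfl := nN_strictMono.injective a1
    exact ⟨rfl, a2, fun i a b => (h1 _ (by omega)).1 (a3 i a b), fun a => (h1 _ (by omega)).1 (a4 a),
      fun a => ⟨fun i b => h2 i b _ ▸ (a5 a).1 i b, (a5 a).2⟩⟩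
  · rintro ⟨rfl, a2, a3, a4, a5⟩
    exact ⟨length_word _ _, a2, fun i a b => (h1 _ (by omega)).2 (a3 i a b),
      fun a => (h1 _ (by omega)).2 (a4 a),
      fun a => ⟨fun i b => (h2 i b _).trans ((a5 a).1 i b), (a5 a).2⟩⟩

variable {P : List Bool → Bool} {m j : ℕ} {us : List (List Bool)} {s : List Bool} {τ : Bool}

theorem lang_lo (hj : j < m) (h : ∀ i < j, Clq m (mk us (2 * i)))
    (hs : Clq m fun e => s.getD e false) : Lang P (LoW m us j s) := by
  unfold LoW hole
  refine (lang_iff (by omega)).2 ⟨List.replicate m false, j, by simp, hj.le, fun i a b => ?_,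
    fun _ => by simpa using hs, fun a => absurd a hj.ne⟩
  rcases b.eq_or_lt with rfl | b
  · simpa using clq_true (by omega)
  · refine (h i b).mono fun e _ c => ?_
    rw [if_neg (by omega)]
    simp [b, c]

theorem not_lang_hi (hj : j < m) (h : ∀ i < j, ¬Clq m (mk us (2 * i + 1)))
    (hs : ¬Clq m fun e => s.getD e false) : ¬Lang P (HiW m us j s) := by
  intro a
  unfold HiW hole at a
  obtain ⟨u, i, -, -, a1, a2, -⟩ := (lang_iff (by omega)).1 a
  by_cases b : j ≤ i
  · exact hs (by simpa using a1 j hj b)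
  · refine h i (by omega) ((a2 (by omega)).mono fun e _ c => ?_)
    rw [if_neg (by omega)] at c
    simpa [show ¬2 * j < 2 * i + 1 by omega] using c

theorem pn_congr {u v : List Bool} (hl : v.length = u.length)
    (h : ∀ i ≤ pn u, v.getD i false = u.getD i false) : pn v = pn u := by
  induction u generalizing v with
  | nil => rw [List.length_eq_zero_iff.1 hl]
  | cons a u ih =>
    obtain ⟨b, v, rfl⟩ := List.exists_cons_of_length_eq_add_one hl
    obtain rfl : b = a := h 0 (Nat.zero_le _)
    cases b
    · simp [pn]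
    · have e : ∀ w, pn (true :: w) = pn w + 1 := fun w => by simp [pn]
      rw [e, e, ih (by simpa using hl) fun i hi => h (i + 1) (by rw [e]; omega)]

theorem lang_rw (hm : 0 < m) (h : ∀ i < m, Clq m (mk us (2 * i)) ∧ ¬Clq m (mk us (2 * i + 1)))
    {L : List Bool → Bool} (hP : ∀ u, L (tl u) = P u) (hτ : τ = true → IsUp L)
    {u : List Bool} (hu : u.length = m) : Lang P (RW m us τ u) ↔ P u = true := by
  rw [RW, lang_iff hm]
  constructor
  · rintro ⟨v, i, a0, a1, -, a2, a3⟩
    rcases a1.eq_or_lt with a | a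
    · obtain ⟨a4, a5⟩ := a3 a
      have a6 : ∀ k, (v.getD k false = true → u.getD k false = true) ∧
          (v.getD k false = u.getD k false ∨ τ = true ∧ pn u < k) := fun k => by
        by_cases hk : k < m
        · have := a4 k hk
          rw [if_neg (by omega)] at this
          revert this
          cases v.getD k false <;> cases e : u.getD k false <;>
            simp [Nat.mul_add_div, -List.getD_eq_getElem?_getD, e]
        · rw [List.getD_eq_default _ _ (by omega), List.getD_eq_default _ _ (by omega)]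
          simp
      cases τ
      · suffices v = u from this ▸ a5
        refine List.ext_getElem (a0.trans hu.symm) fun k h1 h2 => ?_
        simpa [h1, h2] using (a6 k).2
      · have a7 := pn_congr (a0.trans hu.symm) fun k hk => (a6 k).2.resolve_right (by simpa)
        rw [← hP] at a5 ⊢
        refine hτ rfl _ _ (forall₂_of_getD (by simp [tl, a7, a0, hu]) fun k _ => ?_) a5
        simpa [tl, a7] using (a6 (pn u + 1 + k)).1
    · refine absurd ((a2 a).mono fun e _ c => ?_) (h i a).2
      rw [if_pos (by omega)] at c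
      simpa using c
  · refine fun a => ⟨u, m, hu, le_rfl, fun i b _ => (h i b).1.mono fun e _ c => ?_,
      fun b => absurd b (lt_irrefl _), fun _ => ⟨fun i b => ?_, a⟩⟩
    · rw [if_pos (by omega)]
      simp [c]
    · rw [if_neg (lt_irrefl _)]
      cases e : u.getD i false <;> simp [Nat.mul_add_div, -List.getD_eq_getElem?_getD, e]

theorem lo_le (hj : j < m) {u : List Bool} (hu : u.getD j false = true) (p : ℕ) :
    (LoW m us j (us.getD (2 * j + 1) [])).getD p false = true →
      (RW m us τ u).getD p false = true := by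
  unfold LoW hole RW
  refine word_mono (fun b e h => ?_) p
  split_ifs at h with a
  · rw [if_pos (by omega), a]
    exact Bool.or_eq_true_iff.2 (Or.inr h)
  · simp only [Bool.or_eq_true, Bool.and_eq_true, decide_eq_true_eq] at h
    rcases h with rfl | h
    · rw [if_pos (by omega), Nat.mul_div_cancel_left _ two_pos, hu]
      simp
    · rw [if_pos (by omega), h.2]
      simp

theorem le_hi (hj : j < m) {u : List Bool} (hu : u.getD j false = false) (p : ℕ) :
    (RW m us τ u).getD p false = true →
      (HiW m us j (us.getD (2 * j) [])).getD p false = true := by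
  unfold HiW hole RW
  refine word_mono (fun b e h => ?_) p
  split_ifs with a
  · rw [if_pos (by omega), a, Nat.mul_div_cancel_left _ two_pos, hu, Bool.and_false,
      Bool.false_or] at h
    exact h
  · split_ifs at h with c
    · simp only [Bool.or_eq_true, Bool.and_eq_true, decide_eq_true_eq] at h ⊢
      tauto
    · simp [show 2 * j < b by omega]

theorem lo_append (h : 2 * j ≤ us.length) (vs : List (List Bool)) :
    LoW m (us ++ vs) j s = LoW m us j s := by
  unfold LoW
  congr 1
  funext b e
  by_cases a : b < 2 * j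
  · rw [H86.mk, H86.mk, List.getD_append _ _ _ _ (by omega)]
  · simp [a]

theorem hi_append (h : 2 * j ≤ us.length) (vs : List (List Bool)) :
    HiW m (us ++ vs) j s = HiW m us j s := by
  unfold HiW hole
  congr 1
  funext b e
  split_ifs with c
  · rfl
  by_cases a : b < 2 * j
  · simp only [H86.mk]
    rw [List.getD_append _ _ _ _ (by omega)]
  · simp [show 2 * j < b by omega]

/-- The colouring given by a modulus and a list of coefficients. -/
def gl (D m Q : ℕ) (R : List ℕ) (v : ℕ) : ℕ :=
  ((List.range D).map fun i => R.getD i 0 * v ^ i).sum % Q % m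

/-- All moduli and coefficient lists that are tried. -/
def cand (D m : ℕ) : List (ℕ × List ℕ) := (List.range (2 * nV m + 1)).product (tup D (2 * nV m + 1))

theorem col_eq_gl {Q D : ℕ} [Fact Q.Prime] (hQ : Q ≤ 2 * nV m) (ω : Fin D → ZMod Q) :
    ∃ z ∈ cand D m, col m ω = gl D m z.1 z.2 := by
  refine ⟨(Q, List.ofFn fun i => (ω i).val), ?_, funext fun v => ?_⟩
  · refine List.pair_mem_product.2 ⟨List.mem_range.2 (by omega), mem_tup.2 ⟨by simp, ?_⟩⟩
    simp only [List.mem_ofFn]
    rintro _ ⟨i, rfl⟩
    exact (ZMod.val_lt _).trans_le (by omega)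
  · unfold col gl
    rw [← ZMod.val_natCast Q]
    congr 2
    rw [← List.sum_toFinset _ List.nodup_range, List.toFinset_range, Finset.sum_range, ev]
    push_cast
    exact sum_congr rfl fun i _ => by simp [List.getD_eq_getElem?_getD]

theorem out_getD (x : List Bool) (c : List Gate) (out : List ℕ) {a : ℕ} (h : a < out.length) :
    (out.map fun j => decide (1 ≤ (vals x c).getD j 0)).getD a false =
      decide (1 ≤ (vals x c).getD out[a] 0) := by
  simp [List.getD_eq_getElem?_getD, h]

/-- The key step: a positive and a negative test, and an output bit that reads off the `j`-th bit. -/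
theorem exists_pair {B : List Bool → Bool} (hB : IsUp B) {f : List Bool → List Bool}
    (hf : ∀ w, Lang P w ↔ B (f w) = true) {ρ d : ℕ} (hρ : 1 ≤ ρ) (hd : 1 ≤ d) {c : List Gate}
    {out : List ℕ} (hi : ∀ g ∈ c, g.fanin ≤ d)
    (hc : ∀ x : List Bool, x.length = nN m →
      f x = out.map fun j => decide (1 ≤ (vals x c).getD j 0))
    (h1 : 4 * (c.length * (d * (2 * ρ) ^ 2) ^ ((2 * ρ) ^ 2 + 1) * 2 ^ ρ) ≤ m ^ ρ)
    (h2 : 4 * ((2 * ρ) ^ 2 * 2) ≤ m) (hj : j < m)
    (h : ∀ i < j, Clq m (mk us (2 * i)) ∧ ¬Clq m (mk us (2 * i + 1))) :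
    ∃ y ∈ cand (2 * ρ) m, ∃ z ∈ cand (2 * ρ) m, ∃ a < out.length,
      (f (LoW m us j (zw m (gl (2 * ρ) m z.1 z.2)))).getD a false = true ∧
      (f (HiW m us j (yw m (gl (2 * ρ) m y.1 y.2)))).getD a false = false := by
  have hm : 0 < m := by omega
  obtain ⟨Q, q1, q2, q3⟩ := Nat.exists_prime_lt_and_le_two_mul (nV m)
    (Nat.mul_pos (by omega) hm).ne'
  have := Fact.mk q1
  have l1 : ∀ s, (LoW m us j s).length = nN m := fun s => by rw [LoW, hole, length_word]
  have l2 : ∀ s, (HiW m us j s).length = nN m := fun s => by rw [HiW, hole, length_word]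
  obtain ⟨ω1, a1⟩ := (fool_hole q2.le le_rfl hρ hd c hi h1 h2 (2 * j + 1)
    fun b e => decide (b = 2 * j) || (decide (b < 2 * j) && mk us b e)).1
  obtain ⟨ω2, a2⟩ := (fool_hole q2.le le_rfl hρ hd c hi h1 h2 (2 * j)
    fun b e => decide (2 * j < b) || decide (b % 2 = 0) || mk us b e).2
  have b1 := (hf _).1 (lang_lo hj (fun i hi => (h i hi).1)
    (clq_yw (g := col m ω1) fun _ => Nat.mod_lt _ hm))
  have b2 := mt (hf _).2 (not_lang_hi hj (fun i hi => (h i hi).2)
    (not_clq_zw (g := col m ω2) fun _ => Nat.mod_lt _ hm))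
  have b3 := mt (fun a => hB _ _ a b1) b2
  rw [hc _ (l1 _), hc _ (l2 _)] at b3
  have b4 := mt (forall₂_of_getD (by simp)) b3
  push Not at b4
  obtain ⟨a, b5, b6, b7⟩ := b4
  rw [List.length_map] at b5
  rw [out_getD _ _ _ b5, decide_eq_true_eq] at b6
  rw [out_getD _ _ _ b5, Ne, decide_eq_true_eq] at b7
  obtain ⟨ω3, a3⟩ := a1 out[a]
  obtain ⟨ω4, a4⟩ := a2 out[a]
  obtain ⟨z, c1, c2⟩ := col_eq_gl q3 ω3
  obtain ⟨y, c3, c4⟩ := col_eq_gl q3 ω4
  refine ⟨y, c3, z, c1, a, b5, ?_, ?_⟩
  · rw [hc _ (l1 _), out_getD _ _ _ b5, ← c2]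
    exact decide_eq_true (b6.trans a3)
  · rw [hc _ (l2 _), out_getD _ _ _ b5, ← c4]
    exact decide_eq_false fun e => b7 (e.trans a4)

end Pool.Agent.MP_8a92de_lc.H12
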